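import Pool.Agent.Run7.h263.ID.Key

set_option autoImplicit false

namespace Pool.Agent.Run7.h263.ID

open Filter Topology

open Pool.Agent.H499R2.CO (Tz)

open Pool.Agent.Run7.h195.Iso (ww one_le_ww tendsto_log_nat)

/-- The odd elements `n` of `S` without an even element of `S` at a distance of at most `w |n|`. -/
def Is (w : ℕ → ℝ) (S : Set ℤ) : Set ℤ :=
  {n | n % 2 = 1 ∧ n ∈ S ∧ ∀ m : ℤ, m % 2 = 0 → |(m : ℝ) - n| ≤ w n.natAbs → m ∉ S}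

/-- The integers of sign `s`. -/
def Sd (s : ℤ) : Set ℤ := {n | 0 < s * n}

theorem Is_eq (w : ℕ → ℝ) (S : Set ℤ) (s : ℤ) : Iso 1 w S ∩ Cl s 1 1 = Is w S ∩ Sd s := by
  ext n
  constructor
  · rintro ⟨⟨h1, h2, h3⟩, h4, _⟩
    exact ⟨⟨h1, h2, fun m hm hd => h3 m hm Int.modEq_one hd⟩, h4⟩
  · rintro ⟨⟨h1, h2, h3⟩, h4⟩
    exact ⟨⟨h1, h2, fun m hm _ hd => h3 m hm hd⟩, h4, 0, Int.modEq_one⟩

/-- An element of `S` of sign `s` prime to `3`. -/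
theorem prime3 {S : Set ℤ} (hS : Inv 1 S) {s : ℤ} (hs : s = 1 ∨ s = -1) (h : ∃ x ∈ S, 0 < s * x) :
    ∃ x ∈ S, 0 < s * x ∧ ¬ (3 : ℤ) ∣ x := by
  classical
  obtain ⟨x, hx, hx0⟩ := h
  have hex : ∃ n : ℕ, ∃ x : ℤ, x.natAbs = n ∧ x ∈ S ∧ 0 < s * x := ⟨_, x, rfl, hx, hx0⟩
  obtain ⟨y, hyn, hyS, hy0⟩ := Nat.find_spec hex
  have hmin : ∀ z : ℤ, z ∈ S → 0 < s * z → y.natAbs ≤ z.natAbs := by
    intro z hz hz0
    rw [hyn]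
    exact Nat.find_min' hex ⟨z, rfl, hz, hz0⟩
  have hodd : y % 2 = 1 := by
    by_contra h
    obtain ⟨z, rfl⟩ : ∃ z, y = 2 * z := ⟨y / 2, by omega⟩
    have hz0 : 0 < s * z := by
      have : s * (2 * z) = 2 * (s * z) := by ring
      rw [this] at hy0
      omega
    have h1 := hmin z ((hS.two z).1 hyS) hz0
    have h2 : z = 0 := by omega
    rw [h2] at hz0
    simp at hz0
  by_cases h3 : (3 : ℤ) ∣ y
  · refine ⟨Tz 1 y, (hS y).1 hyS, ?_, ?_⟩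
    · unfold Tz
      rw [if_neg (by omega)]
      rcases hs with rfl | rfl <;> omega
    · unfold Tz
      rw [if_neg (by omega)]
      omega
  · exact ⟨y, hyS, hy0, h3⟩

theorem Rel_one (a b : ℤ) : Rel 1 a b := ⟨0, 0, Int.modEq_one⟩

theorem is_ww {S : Set ℤ} (hS : Inv 1 S) {s : ℤ} (hs : s = 1 ∨ s = -1) (h1 : ∃ x ∈ S, 0 < s * x)
    (h2 : ∃ x, x ∉ S ∧ 0 < s * x) {θ : ℝ} (hθ : 0 < θ) (hθ1 : θ < 1 / 2) :
    ¬ Summable (fun n : ↥(Is (ww θ) S ∩ Sd s) => ww θ (n : ℤ).natAbs / ((n : ℤ).natAbs : ℝ)) := by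
  obtain ⟨p, hp, hp0, hp3⟩ := prime3 hS hs h1
  obtain ⟨q, hq, hq0, hq3⟩ := prime3 hS.compl hs (by obtain ⟨x, h3, h4⟩ := h2; exact ⟨x, h3, h4⟩)
  have := iso_ww (d := 1) (by norm_num) hS 1 hs hp hp0 hp3 (Rel_one _ _) hq hq0 hq3 (Rel_one _ _)
    hθ hθ1
  rwa [Is_eq] at this

theorem is_const {S : Set ℤ} (hS : Inv 1 S) {s : ℤ} (hs : s = 1 ∨ s = -1) (h1 : ∃ x ∈ S, 0 < s * x)
    (h2 : ∃ x, x ∉ S ∧ 0 < s * x) (M : ℝ) (hM : 0 ≤ M) :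
    ¬ Summable (fun n : ↥(Is (fun _ => M) S ∩ Sd s) => 1 / ((n : ℤ).natAbs : ℝ)) := by
  obtain ⟨p, hp, hp0, hp3⟩ := prime3 hS hs h1
  obtain ⟨q, hq, hq0, hq3⟩ := prime3 hS.compl hs (by obtain ⟨x, h3, h4⟩ := h2; exact ⟨x, h3, h4⟩)
  have := iso_const (d := 1) (by norm_num) hS 1 hs hp hp0 hp3 (Rel_one _ _) hq hq0 hq3 (Rel_one _ _)
    M hM
  rwa [Is_eq] at this

theorem summable_of_finite {A : Set ℤ} (h : A.Finite) (f : ℤ → ℝ) : Summable fun n : A => f n := by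
  have := h.to_subtype
  exact Summable.of_finite

theorem fin_is {w : ℕ → ℝ} {S : Set ℤ} (h : ∀ᶠ n : ℤ in cofinite, n ∉ Is w S) (g : ℕ → ℝ) :
    Summable fun n : ↥(Is w S) => g (n : ℤ).natAbs := by
  rw [eventually_cofinite] at h
  have h1 : (Is w S).Finite := by simpa using h
  exact summable_of_finite h1 fun n => g n.natAbs

theorem sub_is {w : ℕ → ℝ} {S : Set ℤ} (s : ℤ) {g : ℕ → ℝ}
    (h : Summable fun n : ↥(Is w S) => g (n : ℤ).natAbs) :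
    Summable fun n : ↥(Is w S ∩ Sd s) => g (n : ℤ).natAbs :=
  h.comp_injective (Set.inclusion_injective Set.inter_subset_left)

/-- The conclusions on the isolated members of `S` of sign `s`. -/
def Many (s : ℤ) (S : Set ℤ) : Prop :=
  (∀ M : ℝ, 0 ≤ M → ¬ Summable fun n : ↥(Is (fun _ => M) S ∩ Sd s) => 1 / ((n : ℤ).natAbs : ℝ)) ∧
  ∀ θ : ℝ, 0 < θ → θ < 1 / 2 → (Is (ww θ) S ∩ Sd s).Infinite ∧
    ¬ Summable fun n : ↥(Is (ww θ) S ∩ Sd s) => ww θ (n : ℤ).natAbs / ((n : ℤ).natAbs : ℝ)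

theorem many {S : Set ℤ} (hS : Inv 1 S) {s : ℤ} (hs : s = 1 ∨ s = -1) (h1 : ∃ x ∈ S, 0 < s * x)
    (h2 : ∃ x, x ∉ S ∧ 0 < s * x) : Many s S :=
  ⟨is_const hS hs h1 h2, fun θ hθ hθ1 => ⟨fun hfin => is_ww hS hs h1 h2 hθ hθ1
    (summable_of_finite hfin fun n => ww θ n.natAbs / (n.natAbs : ℝ)), is_ww hS hs h1 h2 hθ hθ1⟩⟩

theorem far1 {θ : ℝ} (n : ℤ) : |((n + 1 : ℤ) : ℝ) - n| ≤ ww θ n.natAbs := by
  push_cast
  rw [add_sub_cancel_left, abs_one]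
  exact one_le_ww θ _

theorem rule24 {w : ℕ → ℝ} {G : Set ℤ} (h : ∀ᶠ n : ℤ in cofinite, n % 2 = 1 →
      (∀ m : ℤ, m % 2 = 0 → |(m : ℝ) - n| ≤ w n.natAbs → m ∈ G) → n ∈ G) :
    ∀ᶠ n : ℤ in cofinite, n ∉ Is w Gᶜ := by
  filter_upwards [h] with n hn hn'
  obtain ⟨h3, h4, h5⟩ := hn'
  exact h4 (hn h3 fun m hm1 hm3 => not_not.1 (h5 m hm1 hm3))

theorem rule35 {w : ℕ → ℝ} {G : Set ℤ} (h : ∀ᶠ n : ℤ in cofinite, n % 2 = 1 → n ∈ G →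
      ∃ m : ℤ, m % 2 = 0 ∧ |(m : ℝ) - n| ≤ w n.natAbs ∧ m ∈ G) :
    ∀ᶠ n : ℤ in cofinite, n ∉ Is w G := by
  filter_upwards [h] with n hn hn'
  obtain ⟨h3, h4, h5⟩ := hn'
  obtain ⟨m, hm1, hm2, hm4⟩ := hn h3 h4
  exact h5 m hm1 hm2 hm4

/-- An invariant set with integers of both signs, if both weighted sums over isolated elements
converge (or one of them), is everything outside of `0`. -/
theorem all_of {G : Set ℤ} (hG : Inv 1 G) (hpos : (1 : ℤ) ∈ G) (hneg : (-1 : ℤ) ∈ G) (h0 : (0 : ℤ) ∈ G)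
    {θ : ℝ} (hθ : 0 < θ) (hθ1 : θ < 1 / 2)
    (h : (Summable fun n : ↥(Is (ww θ) Gᶜ) => ww θ (n : ℤ).natAbs / ((n : ℤ).natAbs : ℝ)) ∨
      Summable fun n : ↥(Is (ww θ) G) => ww θ (n : ℤ).natAbs / ((n : ℤ).natAbs : ℝ)) (x : ℤ) :
    x ∈ G := by
  by_contra hx
  obtain ⟨s, hs, hxs⟩ : ∃ s : ℤ, (s = 1 ∨ s = -1) ∧ 0 < s * x := by
    rcases lt_trichotomy x 0 with h1 | h1 | h1
    · exact ⟨-1, Or.inr rfl, by omega⟩
    · rw [h1] at hx; exact absurd h0 hx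
    · exact ⟨1, Or.inl rfl, by omega⟩
  have hmem : ∃ y ∈ G, 0 < s * y := by
    rcases hs with rfl | rfl
    · exact ⟨1, hpos, by norm_num⟩
    · exact ⟨-1, hneg, by norm_num⟩
  obtain ⟨y, hy, hys⟩ := hmem
  rcases h with h | h
  · exact is_ww hG.compl hs ⟨x, hx, hxs⟩ ⟨y, not_not.2 hy, hys⟩ hθ hθ1
      (sub_is s (g := fun n => ww θ n / (n : ℝ)) h)
  · exact is_ww hG hs ⟨y, hy, hys⟩ ⟨x, hx, hxs⟩ hθ hθ1 (sub_is s (g := fun n => ww θ n / (n : ℝ)) h)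

end Pool.Agent.Run7.h263.ID
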