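import Pool.Agent.Run7.h263.ID.Sgn

set_option autoImplicit false

namespace Pool.Agent.Run7.h263.ID

open Filter Topology

open Pool.Agent.H499R2.CO (Tz)

/-- A representative of a class in the interval `[1, 2 |d|]` which is prime to `3`. -/
theorem rep {d : ℤ} (hd : d ≠ 0) (h3 : ¬ (3 : ℤ) ∣ d) (y : ℤ) :
    ∃ q : ℤ, 1 ≤ q ∧ q ≤ 2 * |d| ∧ ¬ (3 : ℤ) ∣ q ∧ q ≡ y [ZMOD d] := by
  have h0 : 0 < |d| := abs_pos.2 hd
  have h1 := Int.emod_nonneg (y - 1) h0.ne'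
  have h2 := Int.emod_lt_of_pos (y - 1) h0
  have h4 := Int.mul_ediv_add_emod (y - 1) |d|
  obtain ⟨r, hr⟩ : ∃ r, r = (y - 1) % |d| := ⟨_, rfl⟩
  obtain ⟨k, hk⟩ : ∃ k, k = (y - 1) / |d| := ⟨_, rfl⟩
  rw [← hr] at h1 h2 h4
  rw [← hk] at h4
  have h5 : ¬ (3 : ℤ) ∣ |d| := by rwa [dvd_abs]
  have hmod : ∀ e : ℤ, r + 1 + |d| * e ≡ y [ZMOD d] := by
    intro e
    rw [Int.modEq_iff_dvd, ← abs_dvd]
    exact ⟨k - e, by linear_combination -h4⟩
  by_cases h : (3 : ℤ) ∣ r + 1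
  · refine ⟨r + 1 + |d| * 1, by omega, by omega, by omega, hmod 1⟩
  · refine ⟨r + 1 + |d| * 0, by omega, by omega, by omega, hmod 0⟩

/-- A cyclic point is prime to `3`. -/
theorem iter_three {d : ℤ} (h3 : ¬ (3 : ℤ) ∣ d) (hd : d % 2 = 1) {y : ℤ} (hy : (3 : ℤ) ∣ y) (k : ℕ) :
    ∀ x, (Tz d)^[k] x = y → x = 2 ^ k * y := by
  induction k with
  | zero => intro x h; simpa using h
  | succ k ih =>
    intro x h
    rw [Function.iterate_succ_apply] at h
    have h1 := ih _ h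
    obtain ⟨z, rfl⟩ := hy
    unfold Tz at h1
    by_cases hx : x % 2 = 0
    · rw [if_pos hx] at h1
      rw [pow_succ]
      have : x = 2 * (2 ^ k * (3 * z)) := by rw [← h1]; omega
      rw [this]; ring
    · rw [if_neg hx] at h1
      exfalso
      apply h3
      have h4 : 3 * x + d = 2 * (2 ^ k * (3 * z)) := by rw [← h1]; omega
      exact ⟨2 * 2 ^ k * z - x, by linear_combination h4⟩

theorem cyclic_three {d : ℤ} (h3 : ¬ (3 : ℤ) ∣ d) (hd : d % 2 = 1) {c : ℤ} (hc : c ≠ 0) {k : ℕ}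
    (hk : 1 ≤ k) (h : (Tz d)^[k] c = c) : ¬ (3 : ℤ) ∣ c := by
  intro hy
  have h1 := iter_three h3 hd hy k c h
  have h2 : (2 ^ k - 1 : ℤ) * c = 0 := by linear_combination -h1
  rcases mul_eq_zero.1 h2 with h3 | h3
  · have h4 : (1 : ℤ) < 2 ^ k := one_lt_pow₀ (by norm_num) (by omega)
    omega
  · exact hc h3

/-- If `G` is invariant and contains the integers up to `2 |d|` in absolute value, but not all
integers, then there are a `p` outside `G` and a `q` in `G`, congruent modulo `d` and of the same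
sign, both prime to `3`. -/
theorem key {d : ℤ} (hd : d % 2 = 1) (h3 : ¬ (3 : ℤ) ∣ d) {G : Set ℤ} (hG : Inv d G)
    (hwin : ∀ x : ℤ, |x| ≤ 2 * |d| → x ∈ G) {x : ℤ} (hx : x ∉ G) :
    ∃ s p q : ℤ, (s = 1 ∨ s = -1) ∧ p ∉ G ∧ q ∈ G ∧ 0 < s * p ∧ 0 < s * q ∧ ¬ (3 : ℤ) ∣ p ∧
      ¬ (3 : ℤ) ∣ q ∧ p ≡ q [ZMOD d] := by
  classical
  have hd0 : d ≠ 0 := by rintro rfl; norm_num at hd
  have hex : ∃ n : ℕ, ∃ x : ℤ, x.natAbs = n ∧ x ∉ G := ⟨_, x, rfl, hx⟩
  obtain ⟨y, hyn, hyG⟩ := Nat.find_spec hex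
  have hmin : ∀ z : ℤ, z ∉ G → y.natAbs ≤ z.natAbs := by
    intro z hz
    rw [hyn]
    exact Nat.find_min' hex ⟨z, rfl, hz⟩
  have hbig : 2 * |d| < |y| := by
    by_contra h
    exact hyG (hwin y (not_lt.1 h))
  have hd1 : 0 < |d| := abs_pos.2 hd0
  have hodd : y % 2 = 1 := by
    by_contra h
    obtain ⟨z, rfl⟩ : ∃ z, y = 2 * z := ⟨y / 2, by omega⟩
    have h1 := hmin z (fun h => hyG ((hG.two z).2 h))
    have h2 : z = 0 := by omega
    rw [h2] at hbig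
    simp at hbig
    omega
  -- the element `p`
  obtain ⟨p, hp1, hp2, hp3⟩ : ∃ p : ℤ, p ∉ G ∧ ¬ (3 : ℤ) ∣ p ∧ 0 < y * p := by
    by_cases h : (3 : ℤ) ∣ y
    · refine ⟨Tz d y, fun h1 => hyG ((hG y).2 h1), ?_, ?_⟩
      · unfold Tz
        rw [if_neg (by omega)]
        omega
      · have h4 : Tz d y = (3 * y + d) / 2 := by unfold Tz; rw [if_neg (by omega)]
        rw [h4]
        rcases abs_cases y with h5 | h5 <;> rcases abs_cases d with h6 | h6
        · exact mul_pos (by omega) (by omega)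
        · exact mul_pos (by omega) (by omega)
        · exact mul_pos_of_neg_of_neg (by omega) (by omega)
        · exact mul_pos_of_neg_of_neg (by omega) (by omega)
    · have : y ≠ 0 := by rintro rfl; simp at hbig; omega
      exact ⟨y, hyG, h, mul_self_pos.2 this⟩
  rcases lt_or_gt_of_ne (show p ≠ 0 by rintro rfl; simp at hp3) with h | h
  · obtain ⟨q, hq1, hq2, hq3, hq4⟩ := rep hd0 h3 (-p)
    refine ⟨-1, p, -q, Or.inr rfl, hp1, hwin _ ?_, by omega, by omega, hp2, by rwa [Int.dvd_neg], ?_⟩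
    · rw [abs_neg, abs_of_pos (by omega)]; exact hq2
    · have h5 := hq4.neg
      rw [neg_neg] at h5
      exact h5.symm
  · obtain ⟨q, hq1, hq2, hq3, hq4⟩ := rep hd0 h3 p
    refine ⟨1, p, q, Or.inl rfl, hp1, hwin _ ?_, by omega, by omega, hp2, hq3, hq4.symm⟩
    rw [abs_of_pos (by omega)]; exact hq2

end Pool.Agent.Run7.h263.ID
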