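import Pool.Agent.Run7.h195.Iso3

/-!
Sets invariant under doubling: the odd elements which are far from all congruent even elements.
The version with residue classes modulo an odd `D` of the files `Run7/h195/Iso.lean`, `Iso2.lean`,
`Iso3.lean` (helper195), which are the case `D = 1`.
-/

set_option autoImplicit false

namespace Pool.Agent.Run7.h263.ID

open Filter Topology Finset

open Pool.Agent.Run7.h195.Iso (ball mem_ball card_ball card_levels C tendsto_cell)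

/-- `n` is odd, has the property `u`, and no even `m ≥ 1`, congruent to `n` modulo `D`, with
`|m - n| ≤ w n` has it. -/
def Lone (D : ℕ) (w : ℕ → ℝ) (u : ℕ → Prop) (n : ℕ) : Prop :=
  n % 2 = 1 ∧ u n ∧ ∀ m : ℕ, 1 ≤ m → m % 2 = 0 → m ≡ n [MOD D] → |(m : ℝ) - n| ≤ w n → ¬ u m

variable {D : ℕ} {u : ℕ → Prop} {w : ℕ → ℝ}

/-- an element which is not lone has an even neighbour -/
theorem exists_even (w0 : ∀ n, 0 ≤ w n) {n : ℕ} (hn1 : 1 ≤ n) (hn : u n) (hL : ¬ Lone D w u n) :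
    ∃ m : ℕ, 1 ≤ m ∧ |(2 * m : ℝ) - n| ≤ w n ∧ 2 * m ≡ n [MOD D] ∧ u (2 * m) := by
  by_cases h : n % 2 = 1
  · unfold Lone at hL
    push Not at hL
    obtain ⟨m, h1, h2, hc, h3, h4⟩ := hL h hn
    refine ⟨m / 2, by omega, ?_, ?_, ?_⟩
    · have : (m : ℝ) = 2 * ((m / 2 : ℕ) : ℝ) := by
        have : m = 2 * (m / 2) := by omega
        exact_mod_cast this
      rw [← this]; exact h3
    · rw [show 2 * (m / 2) = m by omega]; exact hc
    · rw [show 2 * (m / 2) = m by omega]; exact h4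
  · refine ⟨n / 2, by omega, ?_, ?_, ?_⟩
    · have : (n : ℝ) = 2 * ((n / 2 : ℕ) : ℝ) := by
        have : n = 2 * (n / 2) := by omega
        exact_mod_cast this
      rw [← this, sub_self, abs_zero]; exact w0 n
    · rw [show 2 * (n / 2) = n by omega]
    · rw [show 2 * (n / 2) = n by omega]; exact hn

/-- The chain of halvings. -/
theorem chain (h2 : ∀ m : ℕ, 1 ≤ m → (u (2 * m) ↔ u m)) (w0 : ∀ n, 0 ≤ w n)
    (wm : Monotone w) {n1 x : ℕ} (hn1 : 1 ≤ n1)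
    (hw1 : ∀ n, n1 ≤ n → 100 * w n ≤ n) (hw2 : ∀ n, n1 ≤ n → w (3 * n) ≤ 3 / 2 * w n)
    (hx : 2 * n1 ≤ x) {j n : ℕ} (hn : u n) (hnl : 2 ^ j * x ≤ n) :
    ∀ k ≤ j, (∃ i, k < i ∧ i ≤ j ∧ ∃ m, Lone D w u m ∧ n1 ≤ m ∧ 2 ^ (j - i) * m ≡ n [MOD D] ∧
        |(n : ℝ) - 2 ^ (j - i) * m| ≤ 2 ^ (j - i) * (3 * w m)) ∨
      ∃ m, u m ∧ n1 ≤ m ∧ 2 ^ (j - k) * m ≡ n [MOD D] ∧
        |(n : ℝ) - 2 ^ (j - k) * m| ≤ 2 ^ (j - k) * (3 * w m) := by
  intro k hk
  induction hd : j - k generalizing k with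
  | zero =>
    right
    have hkj : k = j := by omega
    subst hkj
    refine ⟨n, hn, ?_, ?_, ?_⟩
    · have : 1 ≤ 2 ^ k := Nat.one_le_two_pow
      nlinarith
    · rw [pow_zero, one_mul]
    · simp only [pow_zero, one_mul, sub_self, abs_zero]
      have := w0 n
      linarith
  | succ d ih =>
    rcases ih (k + 1) (by omega) (by omega) with ⟨i, h1, h3, h4⟩ | ⟨m, hm1, hm2, hmc, hm3⟩
    · exact Or.inl ⟨i, by omega, h3, h4⟩
    · by_cases hL : Lone D w u m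
      · exact Or.inl ⟨k + 1, by omega, by omega, m, hL, hm2, by
          rw [show j - (k + 1) = d by omega]; exact hmc, by
          rw [show j - (k + 1) = d by omega]; exact hm3⟩
      · right
        obtain ⟨m', hm'1, hm'2, hm'c, hm'3⟩ := exists_even w0 (by omega) hm1 hL
        have hu' : u m' := (h2 m' hm'1).1 hm'3
        have hwm := hw1 m hm2
        have hmR : (1 : ℝ) ≤ m := by exact_mod_cast (by omega : 1 ≤ m)
        have hpow : (0 : ℝ) < 2 ^ d := by positivity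
        -- size of m
        have hsize : (2 : ℝ) ^ (k + 1) * x ≤ 1.03 * m := by
          have h5 := (abs_le.1 hm3).2
          have h6 : (2 : ℝ) ^ j * x ≤ n := by exact_mod_cast hnl
          have h7 : (2 : ℝ) ^ j = 2 ^ d * 2 ^ (k + 1) := by
            rw [← pow_add]; congr 1; omega
          rw [h7] at h6
          have h8 : (2 : ℝ) ^ d * (2 ^ (k + 1) * x) ≤ 2 ^ d * (1.03 * m) := by
            nlinarith
          exact le_of_mul_le_mul_left h8 hpow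
        obtain ⟨h5, h6⟩ := abs_le.1 hm'2
        have hk1 : (2 : ℝ) ≤ 2 ^ (k + 1) := by
          rw [pow_succ]
          have : (1 : ℝ) ≤ 2 ^ k := one_le_pow₀ (by norm_num)
          linarith
        have hxR : (2 : ℝ) * n1 ≤ x := by exact_mod_cast hx
        have hn1R : (1 : ℝ) ≤ n1 := by exact_mod_cast hn1
        have hm'n1 : n1 ≤ m' := by
          have h7 : (n1 : ℝ) ≤ m' := by
            have h8 : (2 : ℝ) * x ≤ 2 ^ (k + 1) * x :=
              mul_le_mul_of_nonneg_right hk1 (by linarith)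
            linarith
          exact_mod_cast h7
        have h3m : m ≤ 3 * m' := by
          have h7 : (m : ℝ) ≤ 3 * m' := by linarith
          exact_mod_cast h7
        have hwm' : w m ≤ 3 / 2 * w m' := (wm h3m).trans (hw2 m' hm'n1)
        refine ⟨m', hu', hm'n1, ?_, ?_⟩
        · have h9 : 2 ^ d * (2 * m') ≡ 2 ^ d * m [MOD D] := hm'c.mul_left _
          rw [show 2 ^ (d + 1) * m' = 2 ^ d * (2 * m') by rw [pow_succ]; ring]
          exact h9.trans hmc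
        · have h9 : (n : ℝ) - 2 ^ (d + 1) * m' = ((n : ℝ) - 2 ^ d * m) - 2 ^ d * (2 * m' - m) := by
            rw [pow_succ]; ring
          rw [h9]
          have hm'2' : |(2 : ℝ) ^ d * (2 * m' - m)| ≤ 2 ^ d * w m := by
            rw [abs_mul, abs_of_pos hpow]
            exact mul_le_mul_of_nonneg_left hm'2 hpow.le
          calc |((n : ℝ) - 2 ^ d * m) - 2 ^ d * (2 * m' - m)|
              ≤ |(n : ℝ) - 2 ^ d * m| + |(2 : ℝ) ^ d * (2 * m' - m)| := abs_sub _ _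
            _ ≤ 2 ^ d * (3 * w m) + 2 ^ d * w m := add_le_add hm3 hm'2'
            _ = 2 ^ d * (4 * w m) := by ring
            _ ≤ 2 ^ d * (4 * (3 / 2 * w m')) := by gcongr
            _ = 2 ^ (d + 1) * (3 * w m') := by rw [pow_succ]; ring

/-- Above a cell without elements in a class the elements come from lone elements. -/
theorem stop (hD : D % 2 = 1) (h2 : ∀ m : ℕ, 1 ≤ m → (u (2 * m) ↔ u m)) (w0 : ∀ n, 0 ≤ w n)
    (wm : Monotone w) {n1 x : ℕ} (hn1 : 1 ≤ n1)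
    (hw1 : ∀ n, n1 ≤ n → 100 * w n ≤ n) (hw2 : ∀ n, n1 ≤ n → w (3 * n) ≤ 3 / 2 * w n)
    (hx : 2 * n1 ≤ x) {j n z a : ℕ} (hz1 : x ≤ z) (hz2 : z < 2 * x)
    (hz : ∀ y : ℕ, |(y : ℝ) - z| ≤ 3 * w (4 * x) + 1 → y ≡ a [MOD D] → ¬ u y)
    (hn : u n) (hna : n ≡ 2 ^ j * a [MOD D]) (hnl : 2 ^ j * z < n) (hnu : n ≤ 2 ^ j * (z + 1)) :
    ∃ i, 1 ≤ i ∧ i ≤ j ∧ ∃ m, Lone D w u m ∧ m ≡ 2 ^ i * a [MOD D] ∧
      |(n : ℝ) - 2 ^ (j - i) * m| ≤ 2 ^ (j - i) * (3 * w m) ∧ 2 ^ i * x ≤ 2 * m ∧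
      m ≤ 3 * (2 ^ i * x) := by
  have hco : ∀ i : ℕ, Nat.Coprime D (2 ^ i) := fun i =>
    Nat.Coprime.pow_right i (Nat.coprime_two_right.2 (Nat.odd_iff.2 hD))
  have hp : 0 < 2 ^ j := by positivity
  have hnl' : 2 ^ j * x ≤ n := by
    have := Nat.mul_le_mul_left (2 ^ j) hz1
    omega
  have hx1 : (1 : ℝ) ≤ x := by
    have : 1 ≤ x := by omega
    exact_mod_cast this
  have hnlR : (2 : ℝ) ^ j * z < n := by exact_mod_cast hnl
  have hnlR' : (2 : ℝ) ^ j * x ≤ n := by exact_mod_cast hnl'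
  have hnuR : (n : ℝ) ≤ 2 ^ j * (z + 1) := by exact_mod_cast hnu
  have hz2R : (z : ℝ) + 1 ≤ 2 * x := by exact_mod_cast hz2
  have key : ∀ i ≤ j, ∀ m : ℕ, n1 ≤ m →
      |(n : ℝ) - 2 ^ (j - i) * m| ≤ 2 ^ (j - i) * (3 * w m) →
      (2 : ℝ) ^ i * x ≤ 1.03 * m ∧ (m : ℝ) ≤ 3 * (2 ^ i * x) := by
    intro i hi m hm h
    have hw := hw1 m hm
    have hpi : (0 : ℝ) < 2 ^ (j - i) := by positivity
    have hj : (2 : ℝ) ^ j = 2 ^ (j - i) * 2 ^ i := by
      rw [← pow_add]; congr 1; omega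
    obtain ⟨h3, h4⟩ := abs_le.1 h
    have hmR : (0 : ℝ) ≤ m := Nat.cast_nonneg _
    rw [hj] at hnlR' hnuR
    constructor
    · have h8 : (2 : ℝ) ^ (j - i) * (2 ^ i * x) ≤ 2 ^ (j - i) * (1.03 * m) := by nlinarith
      exact le_of_mul_le_mul_left h8 hpi
    · have h9 : (2 : ℝ) ^ (j - i) * 2 ^ i * (z + 1) ≤ 2 ^ (j - i) * 2 ^ i * (2 * x) :=
        mul_le_mul_of_nonneg_left hz2R (by positivity)
      have h8 : (2 : ℝ) ^ (j - i) * (0.97 * m) ≤ 2 ^ (j - i) * (2 ^ i * (2 * x)) := by nlinarith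
      have h10 := le_of_mul_le_mul_left h8 hpi
      have h11 : (0 : ℝ) ≤ 2 ^ i * x := by positivity
      nlinarith
  have hclass : ∀ i ≤ j, ∀ m : ℕ, 2 ^ (j - i) * m ≡ n [MOD D] → m ≡ 2 ^ i * a [MOD D] := by
    intro i hi m hm
    have h3 : 2 ^ (j - i) * m ≡ 2 ^ (j - i) * (2 ^ i * a) [MOD D] := by
      refine hm.trans ?_
      rw [← mul_assoc, ← pow_add, Nat.sub_add_cancel hi]
      exact hna
    exact Nat.ModEq.cancel_left_of_coprime (hco _) h3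
  rcases chain (D := D) h2 w0 wm hn1 hw1 hw2 hx hn hnl' 0 (Nat.zero_le _) with
    ⟨i, h1, h3, m, h4, h5, hc, h6⟩ | ⟨m, h1, h3, hc, h4⟩
  · obtain ⟨h7, h8⟩ := key i h3 m h5 h6
    refine ⟨i, h1, h3, m, h4, hclass i h3 m hc, h6, ?_, ?_⟩
    · have : (2 : ℝ) ^ i * x ≤ 2 * m := by
        have : (0 : ℝ) ≤ m := Nat.cast_nonneg _
        linarith
      exact_mod_cast this
    · exact_mod_cast h8
  · exfalso
    obtain ⟨h7, h8⟩ := key 0 (Nat.zero_le _) m h3 h4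
    have hma := hclass 0 (Nat.zero_le _) m hc
    rw [pow_zero, one_mul] at hma
    have h9 : m ≤ 4 * x := by
      have : (m : ℝ) ≤ 4 * x := by
        rw [pow_zero, one_mul] at h8
        linarith
      exact_mod_cast this
    have h10 := wm h9
    refine hz m ?_ hma h1
    rw [Nat.sub_zero] at h4
    have hpR : (0 : ℝ) < 2 ^ j := by positivity
    obtain ⟨h5, h6⟩ := abs_le.1 h4
    rw [abs_le]
    constructor
    · have h11 : (2 : ℝ) ^ j * (z - m) ≤ 2 ^ j * (3 * w m) := by nlinarith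
      have h12 := le_of_mul_le_mul_left h11 hpR
      linarith
    · have h11 : (2 : ℝ) ^ j * (m - (z + 1)) ≤ 2 ^ j * (3 * w m) := by nlinarith
      have h12 := le_of_mul_le_mul_left h11 hpR
      linarith

/-- the lone elements in the classes `2 ^ i a` modulo `D` -/
def LoneIn (D a : ℕ) (w : ℕ → ℝ) (u : ℕ → Prop) (n : ℕ) : Prop :=
  Lone D w u n ∧ ∃ i : ℕ, n ≡ 2 ^ i * a [MOD D]

open Classical in
theorem count_le (hD : D % 2 = 1) (h2 : ∀ m : ℕ, 1 ≤ m → (u (2 * m) ↔ u m)) (w0 : ∀ n, 0 ≤ w n)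
    (wm : Monotone w) {n1 x a : ℕ} (hn1 : 1 ≤ n1)
    (hw1 : ∀ n, n1 ≤ n → 100 * w n ≤ n) (hw2 : ∀ n, n1 ≤ n → w (3 * n) ≤ 3 / 2 * w n)
    (hx : 2 * n1 ≤ x) (j : ℕ) {A : Finset ℕ} (hA : ∀ z ∈ A, x ≤ z ∧ z < 2 * x ∧
      ∀ y : ℕ, |(y : ℝ) - z| ≤ 3 * w (4 * x) + 1 → y ≡ a [MOD D] → ¬ u y) :
    (((A.biUnion fun z => Finset.Ioc (2 ^ j * z) (2 ^ j * (z + 1))).filter
      fun n => u n ∧ n ≡ 2 ^ j * a [MOD D]).card : ℝ) ≤
      54 * (2 ^ j * x) * ∑ m ∈ (Finset.Icc x (3 * (2 ^ j * x))).filter (LoneIn D a w u),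
        (w m + 1) / m := by
  set F := (Finset.Icc x (3 * (2 ^ j * x))).filter (LoneIn D a w u) with hF
  have hx1 : 1 ≤ x := by omega
  have hsub : (A.biUnion fun z => Finset.Ioc (2 ^ j * z) (2 ^ j * (z + 1))).filter
      (fun n => u n ∧ n ≡ 2 ^ j * a [MOD D]) ⊆
      (Finset.Icc 1 j).biUnion fun i =>
        (F.filter fun m => 2 ^ i * x ≤ 2 * m ∧ m ≤ 3 * (2 ^ i * x)).biUnion fun m =>
          ball (2 ^ (j - i) * m) (2 ^ (j - i) * (3 * w m)) := by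
    intro n hn
    rw [Finset.mem_filter, Finset.mem_biUnion] at hn
    obtain ⟨⟨z, hz, hnz⟩, hun, hna⟩ := hn
    rw [Finset.mem_Ioc] at hnz
    obtain ⟨hz1, hz2, hz3⟩ := hA z hz
    obtain ⟨i, h1, h3, m, h4, hc, h5, h6, h7⟩ :=
      stop hD h2 w0 wm hn1 hw1 hw2 hx hz1 hz2 hz3 hun hna hnz.1 hnz.2
    rw [Finset.mem_biUnion]
    refine ⟨i, Finset.mem_Icc.2 ⟨h1, h3⟩, ?_⟩
    rw [Finset.mem_biUnion]
    refine ⟨m, ?_, mem_ball h5⟩
    rw [Finset.mem_filter, hF, Finset.mem_filter, Finset.mem_Icc]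
    refine ⟨⟨⟨?_, ?_⟩, h4, i, hc⟩, h6, h7⟩
    · have h8 : 2 ^ 1 ≤ 2 ^ i := Nat.pow_le_pow_right (by norm_num) h1
      have h9 : 2 ^ 1 * x ≤ 2 ^ i * x := Nat.mul_le_mul_right x h8
      omega
    · have h8 : 2 ^ i ≤ 2 ^ j := Nat.pow_le_pow_right (by norm_num) h3
      have h9 : 2 ^ i * x ≤ 2 ^ j * x := Nat.mul_le_mul_right x h8
      omega
  have h1 : (((A.biUnion fun z => Finset.Ioc (2 ^ j * z) (2 ^ j * (z + 1))).filter
      fun n => u n ∧ n ≡ 2 ^ j * a [MOD D]).card : ℝ) ≤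
      ∑ i ∈ Finset.Icc 1 j, ∑ m ∈ F.filter fun m => 2 ^ i * x ≤ 2 * m ∧ m ≤ 3 * (2 ^ i * x),
        ((ball (2 ^ (j - i) * m) (2 ^ (j - i) * (3 * w m))).card : ℝ) := by
    have h3 := (Finset.card_le_card hsub).trans Finset.card_biUnion_le
    have h4 : (∑ i ∈ Finset.Icc 1 j, ((F.filter fun m => 2 ^ i * x ≤ 2 * m ∧
        m ≤ 3 * (2 ^ i * x)).biUnion fun m =>
          ball (2 ^ (j - i) * m) (2 ^ (j - i) * (3 * w m))).card) ≤
        ∑ i ∈ Finset.Icc 1 j, ∑ m ∈ F.filter fun m => 2 ^ i * x ≤ 2 * m ∧ m ≤ 3 * (2 ^ i * x),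
          (ball (2 ^ (j - i) * m) (2 ^ (j - i) * (3 * w m))).card :=
      Finset.sum_le_sum fun i _ => Finset.card_biUnion_le
    exact_mod_cast h3.trans h4
  have hx0 : (0 : ℝ) < x := by exact_mod_cast hx1
  have hg : ∀ m, 0 ≤ (w m + 1) / (m : ℝ) := fun m => by have := w0 m; positivity
  have h3 : ∀ i ∈ Finset.Icc 1 j, ∀ m ∈ F.filter fun m => 2 ^ i * x ≤ 2 * m ∧ m ≤ 3 * (2 ^ i * x),
      ((ball (2 ^ (j - i) * m) (2 ^ (j - i) * (3 * w m))).card : ℝ) ≤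
        18 * (2 ^ j * x) * ((w m + 1) / m) := by
    intro i hi m hm
    rw [Finset.mem_Icc] at hi
    rw [Finset.mem_filter, hF, Finset.mem_filter, Finset.mem_Icc] at hm
    have hm0 : (0 : ℝ) < m := by
      have : 0 < m := by omega
      exact_mod_cast this
    have hwm := w0 m
    have hp1 : (1 : ℝ) ≤ 2 ^ (j - i) := one_le_pow₀ (by norm_num)
    refine (card_ball (by positivity) (by positivity)).trans ?_
    have h4 : (m : ℝ) ≤ 3 * (2 ^ i * x) := by exact_mod_cast hm.2.2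
    have h5 : (2 : ℝ) ^ j = 2 ^ (j - i) * 2 ^ i := by
      rw [← pow_add]; congr 1; omega
    have h6 : 2 * (2 ^ (j - i) * (3 * w m)) + 1 ≤ 6 * 2 ^ (j - i) * (w m + 1) := by nlinarith
    refine h6.trans ?_
    have h7 : (2 : ℝ) ^ (j - i) ≤ 3 * (2 ^ j * x) / m := by
      rw [le_div_iff₀ hm0, h5]
      have := mul_le_mul_of_nonneg_left h4 (by positivity : (0 : ℝ) ≤ 2 ^ (j - i))
      nlinarith
    calc 6 * 2 ^ (j - i) * (w m + 1) ≤ 6 * (3 * (2 ^ j * x) / m) * (w m + 1) := by gcongr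
      _ = 18 * (2 ^ j * x) * ((w m + 1) / m) := by ring
  refine h1.trans ((Finset.sum_le_sum fun i hi => Finset.sum_le_sum (h3 i hi)).trans ?_)
  have h4 : ∀ i, ∑ m ∈ F.filter fun m => 2 ^ i * x ≤ 2 * m ∧ m ≤ 3 * (2 ^ i * x),
      18 * (2 ^ j * x) * ((w m + 1) / m) = ∑ m ∈ F,
        if 2 ^ i * x ≤ 2 * m ∧ m ≤ 3 * (2 ^ i * x) then 18 * (2 ^ j * x) * ((w m + 1) / m) else 0 :=
    fun i => Finset.sum_filter _ _
  simp only [h4]
  rw [Finset.sum_comm, Finset.mul_sum]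
  refine Finset.sum_le_sum fun m _ => ?_
  rw [← Finset.sum_filter, Finset.sum_const, nsmul_eq_mul]
  have h5 : (((Finset.Icc 1 j).filter fun i => 2 ^ i * x ≤ 2 * m ∧
      m ≤ 3 * (2 ^ i * x)).card : ℝ) ≤ 3 := by exact_mod_cast card_levels hx1 j m
  calc _ ≤ 3 * (18 * (2 ^ j * x) * ((w m + 1) / m)) :=
        mul_le_mul_of_nonneg_right h5 (by have := hg m; positivity)
    _ = 54 * (2 ^ j * x) * ((w m + 1) / m) := by ring

end Pool.Agent.Run7.h263.ID
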