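import Pool.Agent.Run7.h263.ID.Chain

set_option autoImplicit false

namespace Pool.Agent.Run7.h263.ID

open Filter Topology Finset

open Pool.Agent.Run7.h195.Iso (C tendsto_cell)

variable {D : ℕ} {u : ℕ → Prop} {w : ℕ → ℝ}

theorem exists_period (hD : D % 2 = 1) : ∃ e : ℕ, 1 ≤ e ∧ ∀ a k : ℕ, 2 ^ (e * k) * a ≡ a [MOD D] := by
  refine ⟨D.totient, Nat.totient_pos.2 (by omega), fun a k => ?_⟩
  have h1 : 2 ^ D.totient ≡ 1 [MOD D] := Nat.ModEq.pow_totient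
    (Nat.coprime_comm.1 (Nat.coprime_two_right.2 (Nat.odd_iff.2 hD)))
  have h3 := (h1.pow k).mul_right a
  rwa [← pow_mul, one_pow, one_mul] at h3

open Classical in
theorem cell_sum (hD : D % 2 = 1) {a : ℕ} (h2 : ∀ m : ℕ, 1 ≤ m → (u (2 * m) ↔ u m))
    (w0 : ∀ n, 0 ≤ w n) (wm : Monotone w) {n1 x : ℕ} (hn1 : 1 ≤ n1)
    (hw1 : ∀ n, n1 ≤ n → 100 * w n ≤ n) (hw2 : ∀ n, n1 ≤ n → w (3 * n) ≤ 3 / 2 * w n)
    (hx : 2 * n1 ≤ x) (j : ℕ) (hj : 2 ^ j * a ≡ a [MOD D]) {A : Finset ℕ}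
    (hA : ∀ z ∈ A, x ≤ z ∧ z < 2 * x ∧
      ∀ y : ℕ, |(y : ℝ) - z| ≤ 3 * w (4 * x) + 1 → y ≡ a [MOD D] → ¬ u y) {ε : ℝ}
    (hε : ∑ m ∈ (Finset.Icc x (3 * (2 ^ j * x))).filter (LoneIn D a w u), (w m + 1) / m ≤ ε)
    {U : ℕ → Prop} (hU : ∀ n, U n ↔ u n ∧ n ≡ a [MOD D]) :
    ∑ z ∈ A, (((Finset.Ioc (2 ^ j * z) (2 ^ j * (z + 1))).filter U).card : ℝ) / 2 ^ j ≤
        54 * x * ε := by
  have h3 := count_le hD h2 w0 wm (n1 := n1) (x := x) (a := a) hn1 hw1 hw2 hx j hA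
  have hUeq : ((A.biUnion fun z => Finset.Ioc (2 ^ j * z) (2 ^ j * (z + 1))).filter U).card =
      ((A.biUnion fun z => Finset.Ioc (2 ^ j * z) (2 ^ j * (z + 1))).filter
        fun n => u n ∧ n ≡ 2 ^ j * a [MOD D]).card := by
    congr 1
    apply Finset.filter_congr
    intro n _
    rw [hU]
    constructor
    · rintro ⟨h4, h5⟩; exact ⟨h4, h5.trans hj.symm⟩
    · rintro ⟨h4, h5⟩; exact ⟨h4, h5.trans hj⟩
  rw [← hUeq] at h3
  have h7 : (((A.biUnion fun z => Finset.Ioc (2 ^ j * z) (2 ^ j * (z + 1))).filter U).card : ℝ) =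
      ∑ z ∈ A, (((Finset.Ioc (2 ^ j * z) (2 ^ j * (z + 1))).filter U).card : ℝ) := by
    rw [Finset.filter_biUnion, Finset.card_biUnion]
    · push_cast; rfl
    · intro z _ z' _ hne
      rw [Function.onFun, Finset.disjoint_left]
      intro n hn hn'
      rw [Finset.mem_filter, Finset.mem_Ioc] at hn hn'
      have hp : 0 < 2 ^ j := by positivity
      rcases lt_or_gt_of_ne hne with h | h
      · have := Nat.mul_le_mul_left (2 ^ j) (show z + 1 ≤ z' by omega)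
        omega
      · have := Nat.mul_le_mul_left (2 ^ j) (show z' + 1 ≤ z by omega)
        omega
  rw [← Finset.sum_div, ← h7, div_le_iff₀ (by positivity)]
  refine h3.trans ?_
  have h8 : (0 : ℝ) ≤ 54 * (2 ^ j * x) := by positivity
  calc _ ≤ 54 * (2 ^ j * x) * ε := mul_le_mul_of_nonneg_left hε h8
    _ = 54 * x * ε * 2 ^ j := by ring

open Classical in
/-- The main theorem on sets invariant under doubling. -/
theorem core (hD : D % 2 = 1) (a : ℕ) (h2 : ∀ m : ℕ, 1 ≤ m → (u (2 * m) ↔ u m)) (w0 : ∀ n, 0 ≤ w n)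
    (wm : Monotone w) (hw1 : ∀ᶠ n : ℕ in atTop, 100 * w n ≤ n)
    (hw2 : ∀ᶠ n : ℕ in atTop, w (3 * n) ≤ 3 / 2 * w n) {δ : ℝ} (hδ : 0 < δ) {U : ℕ → Prop}
    (hU : ∀ n, U n ↔ u n ∧ n ≡ a [MOD D])
    (hd : Tendsto (fun N : ℕ => (C U N : ℝ) / N) atTop (𝓝 δ))
    {c : ℝ} (hc : 0 < c) {V : ℕ → ℕ → Prop}
    (hV : ∀ x z, V x z → ∀ y : ℕ, |(y : ℝ) - z| ≤ 3 * w (4 * x) + 1 → y ≡ a [MOD D] → ¬ u y)
    (hA : ∀ᶠ x : ℕ in atTop, c * x ≤ (((Finset.Ico x (2 * x)).filter (V x)).card : ℝ)) :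
    ¬ Summable (fun n : {n : ℕ | LoneIn D a w u n} => (w n + 1) / ((n : ℕ) : ℝ)) := by
  intro hsum
  have hsum' : Summable (Set.indicator {n : ℕ | LoneIn D a w u n} fun n => (w n + 1) / (n : ℝ)) :=
    summable_subtype_iff_indicator.1 hsum
  rw [summable_iff_vanishing_norm] at hsum'
  obtain ⟨s, hs⟩ := hsum' (c * δ / 108) (by positivity)
  obtain ⟨n1, hn1⟩ := (hw1.and hw2).exists_forall_of_atTop
  obtain ⟨x1, hx1⟩ := hA.exists_forall_of_atTop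
  obtain ⟨e, he, hpow⟩ := exists_period hD
  obtain ⟨n2, hn2, hn2'⟩ : ∃ n2, n1 ≤ n2 ∧ 1 ≤ n2 := ⟨n1 + 1, by omega, by omega⟩
  obtain ⟨x, hx, hxx1, hxs⟩ : ∃ x, 2 * n2 ≤ x ∧ x1 ≤ x ∧ s.sup id + 1 ≤ x :=
    ⟨2 * n2 + x1 + (s.sup id + 1), by omega, by omega, by omega⟩
  have hx0 : 1 ≤ x := by omega
  have hxR : (0 : ℝ) < x := by exact_mod_cast hx0
  have hA' := hx1 x hxx1
  obtain ⟨A, hAdef⟩ : ∃ A, A = (Finset.Ico x (2 * x)).filter (V x) := ⟨_, rfl⟩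
  rw [← hAdef] at hA'
  have hAmem : ∀ z ∈ A, x ≤ z ∧ z < 2 * x ∧
      ∀ y : ℕ, |(y : ℝ) - z| ≤ 3 * w (4 * x) + 1 → y ≡ a [MOD D] → ¬ u y := by
    intro z hz
    rw [hAdef, Finset.mem_filter, Finset.mem_Ico] at hz
    exact ⟨hz.1.1, hz.1.2, hV x z hz.2⟩
  have hcount : ∀ j : ℕ, 2 ^ j * a ≡ a [MOD D] → ∑ z ∈ A, (((Finset.Ioc (2 ^ j * z)
      (2 ^ j * (z + 1))).filter U).card : ℝ) / 2 ^ j ≤ 54 * x * (c * δ / 108) := by
    intro j hj
    refine cell_sum hD h2 w0 wm (n1 := n2) hn2' (fun n hn => (hn1 n (hn2.trans hn)).1)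
      (fun n hn => (hn1 n (hn2.trans hn)).2) hx j hj hAmem ?_ hU
    have hdisj : Disjoint ((Finset.Icc x (3 * (2 ^ j * x))).filter (LoneIn D a w u)) s := by
      rw [Finset.disjoint_left]
      intro m hm hm'
      rw [Finset.mem_filter, Finset.mem_Icc] at hm
      have h4 : m ≤ s.sup id := Finset.le_sup (f := id) hm'
      omega
    have h4 := hs _ hdisj
    have h5 : ∑ m ∈ (Finset.Icc x (3 * (2 ^ j * x))).filter (LoneIn D a w u),
        Set.indicator {n : ℕ | LoneIn D a w u n} (fun n => (w n + 1) / (n : ℝ)) m =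
        ∑ m ∈ (Finset.Icc x (3 * (2 ^ j * x))).filter (LoneIn D a w u), (w m + 1) / (m : ℝ) := by
      refine Finset.sum_congr rfl fun m hm => ?_
      rw [Finset.mem_filter] at hm
      rw [Set.indicator_of_mem]
      exact hm.2
    rw [h5] at h4
    exact (le_abs_self _).trans (by rw [← Real.norm_eq_abs]; exact h4.le)
  obtain ⟨G, hG⟩ : ∃ G : ℕ → ℝ, ∀ j, G j = ∑ z ∈ A, (((Finset.Ioc (2 ^ j * z)
      (2 ^ j * (z + 1))).filter U).card : ℝ) / 2 ^ j := ⟨_, fun _ => rfl⟩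
  have hlim : Tendsto G atTop (𝓝 (∑ _z ∈ A, δ)) := by
    have h1 : Tendsto (fun j : ℕ => ∑ z ∈ A, (((Finset.Ioc (2 ^ j * z)
        (2 ^ j * (z + 1))).filter U).card : ℝ) / 2 ^ j) atTop (𝓝 (∑ _z ∈ A, δ)) :=
      tendsto_finsetSum _ fun z hz => tendsto_cell hd (by have := (hAmem z hz).1; omega)
    exact h1.congr fun j => (hG j).symm
  have hsubseq : Tendsto (fun k : ℕ => e * k) atTop atTop :=
    tendsto_atTop_mono (fun k => Nat.le_mul_of_pos_left k (by omega)) tendsto_id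
  have h9 : ∑ _z ∈ A, δ ≤ 54 * x * (c * δ / 108) := by
    refine le_of_tendsto' (hlim.comp hsubseq) fun k => ?_
    show G (e * k) ≤ _
    rw [hG]
    exact hcount _ (hpow a k)
  rw [Finset.sum_const, nsmul_eq_mul] at h9
  have h10 : c * x * δ ≤ (A.card : ℝ) * δ := mul_le_mul_of_nonneg_right hA' hδ.le
  have h11 : 0 < c * x * δ := by positivity
  nlinarith

end Pool.Agent.Run7.h263.ID
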