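import Pool.Agent.W38.CRh

/-! Coalescing runs of the `3x+d` maps: `n, n + d, n + 2d, ...`, for every odd `d` (of either sign). -/

set_option autoImplicit false

namespace Pool.Agent.Run7.h263.ID

open Finset Filter Topology Pool.Agent.H499R2.CO Pool.Agent.W38.CR

/-- value of a form -/
def evd (d : ℤ) (A : ℕ × ℤ) (m : ℤ) : ℤ := 3 ^ A.1 * m + d * A.2

theorem Tz_evd {d : ℤ} (hd : d % 2 = 1) (b : Bool) (A : ℕ × ℤ) (m : ℤ) :
    Tz d (evd d A (2 * m + d * bz b)) = evd d (fs b A) m := by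
  have e : evd d A (2 * m + d * bz b) = 2 * (3 ^ A.1 * m) + d * vl b A := by
    unfold evd vl; ring
  rw [e]
  obtain ⟨k, hk⟩ : ∃ k, d = 2 * k + 1 := ⟨d / 2, by omega⟩
  unfold Tz fs
  rcases Int.emod_two_eq_zero_or_one (vl b A) with h | h
  · obtain ⟨v, hv⟩ : ∃ v, vl b A = 2 * v := ⟨vl b A / 2, by omega⟩
    have h1 : 2 * (3 ^ A.1 * m) + d * vl b A = 2 * (3 ^ A.1 * m + d * v) := by rw [hv]; ring
    rw [h1, if_pos (by omega), if_pos h]
    unfold evd
    simp only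
    rw [hv, Int.mul_ediv_cancel_left _ (by norm_num), Int.mul_ediv_cancel_left _ (by norm_num)]
  · obtain ⟨v, hv⟩ : ∃ v, vl b A = 2 * v + 1 := ⟨vl b A / 2, by omega⟩
    have h1 : 2 * (3 ^ A.1 * m) + d * vl b A = 2 * (3 ^ A.1 * m + d * v + k) + 1 := by
      rw [hv]; linear_combination hk
    rw [h1, if_neg (by omega), if_neg (by omega)]
    unfold evd
    simp only
    have h2 : 3 * (2 * (3 ^ A.1 * m + d * v + k) + 1) + d =
        2 * (3 ^ (A.1 + 1) * m + d * (3 * v + 2)) := by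
      rw [pow_succ]; linear_combination (-3) * hk
    have h3 : 3 * vl b A + 1 = 2 * (3 * v + 2) := by rw [hv]; ring
    rw [h2, h3, Int.mul_ediv_cancel_left _ (by norm_num), Int.mul_ediv_cancel_left _ (by norm_num)]

theorem Tz_evd_iter {d : ℤ} (hd : d % 2 = 1) (l : List Bool) : ∀ (A : ℕ × ℤ) (m : ℤ),
    (Tz d)^[l.length] (evd d A (2 ^ l.length * m + d * bv l)) = evd d (fl l A) m := by
  induction l with
  | nil => intro A m; simp [bv, fl]
  | cons b l ih =>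
    intro A m
    have e : (2 : ℤ) ^ (b :: l).length * m + d * bv (b :: l) =
        2 * (2 ^ l.length * m + d * bv l) + d * bz b := by
      simp only [List.length_cons, bv, pow_succ]; ring
    rw [e, List.length_cons, Function.iterate_succ_apply, Tz_evd hd, ih]
    rfl

theorem exists_inv {d : ℤ} (hd : d % 2 = 1) (k : ℕ) : ∃ e : ℕ, e % 2 = 1 ∧ (2 : ℤ) ^ k ∣ d * e - 1 := by
  induction k with
  | zero => exact ⟨1, rfl, by simp⟩
  | succ k ih =>
    obtain ⟨e, he, c, hc⟩ := ih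
    rcases Int.emod_two_eq_zero_or_one c with h | h
    · refine ⟨e, he, c / 2, ?_⟩
      rw [hc, pow_succ, mul_assoc]
      congr 1
      omega
    · rcases k with _ | k
      · -- `2 ^ 1`
        refine ⟨e, he, ?_⟩
        have h1 : (d * e) % 2 = 1 := by
          rw [Int.mul_emod, hd]
          have : (e : ℤ) % 2 = 1 := by omega
          rw [this]; norm_num
        exact ⟨(d * e) / 2, by rw [zero_add, pow_one]; omega⟩
      · refine ⟨e + 2 ^ (k + 1), ?_, ?_⟩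
        · rw [pow_succ]; omega
        · refine ⟨(c + d) / 2, ?_⟩
          obtain ⟨v, hv⟩ : ∃ v, c + d = 2 * v := ⟨(c + d) / 2, by omega⟩
          push_cast
          rw [hv, Int.mul_ediv_cancel_left _ (by norm_num), pow_succ (2 : ℤ) (k + 1)]
          linear_combination hc + 2 ^ (k + 1) * hv

theorem bits_mod (k x : ℕ) : bits k x = bits k (x % 2 ^ k) := by
  conv_lhs => rw [← Nat.div_add_mod x (2 ^ k)]
  exact bits_add k _ _

theorem sum_bits_perm {e : ℕ} (he : e % 2 = 1) (k : ℕ) (F : List Bool → ℝ) :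
    ∑ x ∈ range (2 ^ k), F (bits k (x * e)) = ∑ x ∈ range (2 ^ k), F (bits k x) := by
  have hpos : 0 < 2 ^ k := by positivity
  have hco : Nat.Coprime e (2 ^ k) := Nat.Coprime.pow_right k (Nat.coprime_two_right.2 (Nat.odd_iff.2 he))
  have hinj : Set.InjOn (fun x => x * e % 2 ^ k) (range (2 ^ k) : Finset ℕ) := by
    intro x hx y hy hxy
    simp only [coe_range, Set.mem_Iio] at hx hy
    have h1 : x * e ≡ y * e [MOD 2 ^ k] := hxy
    have h2 : x ≡ y [MOD 2 ^ k] := Nat.ModEq.cancel_right_of_coprime hco.symm h1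
    rwa [Nat.ModEq, Nat.mod_eq_of_lt hx, Nat.mod_eq_of_lt hy] at h2
  have himg : (range (2 ^ k)).image (fun x => x * e % 2 ^ k) = range (2 ^ k) := by
    apply Finset.eq_of_subset_of_card_le
    · intro y hy
      rw [mem_image] at hy
      obtain ⟨x, _, rfl⟩ := hy
      rw [mem_range]
      exact Nat.mod_lt _ hpos
    · rw [card_image_of_injOn hinj]
  calc ∑ x ∈ range (2 ^ k), F (bits k (x * e)) = ∑ x ∈ range (2 ^ k), F (bits k (x * e % 2 ^ k)) :=
        sum_congr rfl fun x _ => by rw [← bits_mod]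
    _ = ∑ y ∈ (range (2 ^ k)).image (fun x => x * e % 2 ^ k), F (bits k y) := by
        rw [sum_image hinj]
    _ = _ := by rw [himg]

theorem sum_bits_mul' {e : ℕ} (he : e % 2 = 1) (k q : ℕ) (F : List Bool → ℝ) :
    ∑ x ∈ range (2 ^ k * q), F (bits k (x * e)) = q * (2 ^ k * av k F) := by
  induction q with
  | zero => simp
  | succ q ih =>
    rw [show 2 ^ k * (q + 1) = 2 ^ k * q + 2 ^ k by ring, sum_range_add, ih]
    have e1 : ∀ x : ℕ, F (bits k ((2 ^ k * q + x) * e)) = F (bits k (x * e)) := fun x => by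
      rw [show (2 ^ k * q + x) * e = 2 ^ k * (q * e) + x * e by ring, bits_add]
    simp only [e1]
    rw [sum_bits_perm he, sum_bits]
    push_cast
    ring

theorem sum_Icc_bits' {e : ℕ} (he : e % 2 = 1) {F : List Bool → ℝ} (hF : ∀ l, 0 ≤ F l) (k N : ℕ) :
    ∑ n ∈ Icc 1 N, F (bits k (n * e)) ≤ (N + 2 ^ k) * av k F := by
  have hav : 0 ≤ av k F := av_nonneg fun l _ => hF l
  have h1 : Icc 1 N ⊆ range (2 ^ k * (N / 2 ^ k + 1)) := by
    intro n hn
    rw [mem_Icc] at hn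
    rw [mem_range]
    have h := Nat.lt_mul_div_succ N (show 0 < 2 ^ k by positivity)
    omega
  have h2 := sum_le_sum_of_subset_of_nonneg h1 (f := fun n => F (bits k (n * e))) (fun _ _ _ => hF _)
  refine h2.trans ?_
  rw [sum_bits_mul' he]
  have h3 : ((N / 2 ^ k + 1 : ℕ) : ℝ) * 2 ^ k ≤ N + 2 ^ k := by
    have h4 : (N / 2 ^ k + 1) * 2 ^ k ≤ N + 2 ^ k := by
      have := Nat.div_mul_le_self N (2 ^ k)
      rw [add_mul, one_mul]
      omega
    exact_mod_cast h4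
  calc ((N / 2 ^ k + 1 : ℕ) : ℝ) * (2 ^ k * av k F) = (((N / 2 ^ k + 1 : ℕ) : ℝ) * 2 ^ k) * av k F := by ring
    _ ≤ _ := mul_le_mul_of_nonneg_right h3 hav

/-- the iterates through the forms -/
theorem iter_formd {d : ℤ} (hd : d % 2 = 1) {k e : ℕ} (he : (2 : ℤ) ^ k ∣ d * e - 1) (n : ℕ) :
    ∃ m : ℤ, ∀ h : ℕ, (Tz d)^[k] ((n : ℤ) + d * h) = evd d (fl (bits k (n * e)) (0, (h : ℤ))) m := by
  obtain ⟨c, hc⟩ := he
  have h2 : (2 : ℤ) ^ k * ((n * e / 2 ^ k : ℕ) : ℤ) + bv (bits k (n * e)) = n * e := by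
    rw [bv_bits]; push_cast; ring
  refine ⟨d * ((n * e / 2 ^ k : ℕ) : ℤ) - c * n, fun h => ?_⟩
  have h1 := Tz_evd_iter hd (bits k (n * e)) (0, (h : ℤ)) (d * ((n * e / 2 ^ k : ℕ) : ℤ) - c * n)
  rw [length_bits] at h1
  rw [← h1]
  congr 1
  unfold evd
  simp only [pow_zero, one_mul]
  linear_combination (-d) * h2 - (n : ℤ) * hc

/-- The first phase for the integers. -/
theorem forwardD {d : ℤ} (hd : d % 2 = 1) {ε : ℝ} (hε : 0 < ε) :
    ∃ m0 : ℕ, ∀ m ≥ m0, ∃ T : ℕ, T ≤ 2 * (4 ^ m * m ^ 30) ∧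
    ∀ N : ℕ, (#((Icc 1 N).filter (fun n : ℕ => ¬ ∀ h : ℕ, h < 2 ^ 2 ^ m →
      (Tz d)^[T] (((n : ℕ) : ℤ) + d * h) = (Tz d)^[T] ((n : ℕ) : ℤ))) : ℝ) ≤ ε * (N + 2 ^ T) := by
  classical
  obtain ⟨m0, hm0⟩ := phase hε
  refine ⟨m0, fun m hm => ?_⟩
  obtain ⟨T, hT, hav⟩ := hm0 m hm
  refine ⟨T, hT, fun N => ?_⟩
  obtain ⟨e, he, hde⟩ := exists_inv hd T
  set F : List Bool → ℝ := fun l => bad (fl l (0, 0)) (im l (Q0 (2 ^ m))) with hF
  have hF0 : ∀ l, 0 ≤ F l := fun l => bad_nonneg _ _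
  have h1 := sum_Icc_bits' he hF0 T N
  have h2 : (#((Icc 1 N).filter (fun n : ℕ => ¬ ∀ h : ℕ, h < 2 ^ 2 ^ m →
      (Tz d)^[T] (((n : ℕ) : ℤ) + d * h) = (Tz d)^[T] ((n : ℕ) : ℤ))) : ℝ) ≤
      ∑ n ∈ Icc 1 N, F (bits T (n * e)) := by
    rw [card_filter]
    push_cast
    apply sum_le_sum
    intro n _
    by_cases hn : ∀ h : ℕ, h < 2 ^ 2 ^ m → (Tz d)^[T] (((n : ℕ) : ℤ) + d * h) = (Tz d)^[T] ((n : ℕ) : ℤ)
    · rw [if_neg (not_not.2 hn)]; exact hF0 _
    · rw [if_pos hn]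
      refine le_of_eq (bad_one (fun hall => hn ?_)).symm
      intro h hh
      obtain ⟨M, hM⟩ := iter_formd hd hde n
      have e1 : ((Tz d)^[T] ((n : ℕ) : ℤ)) = (Tz d)^[T] (((n : ℕ) : ℤ) + d * ((0 : ℕ) : ℤ)) := by simp
      rw [e1, hM, hM]
      have e2 := hall (fl (bits T (n * e)) (0, (h : ℤ))) (by
        unfold im Q0
        apply mem_image_of_mem
        rw [mem_image]
        exact ⟨h, mem_range.2 hh, rfl⟩)
      rw [e2]
      simp
  have h3 : (0 : ℝ) ≤ (N : ℝ) + 2 ^ T := by positivity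
  calc _ ≤ _ := h2
    _ ≤ _ := h1
    _ ≤ (N + 2 ^ T) * ε := mul_le_mul_of_nonneg_left hav h3
    _ = _ := by ring

/-- the whole run `n, n + d, ..., n + d GG n` has merged at some time -/
def MergedD (d : ℤ) (n : ℕ) : Prop := ∃ t : ℕ, ∀ h : ℕ, (h : ℝ) ≤ GG n →
  (Tz d)^[t] ((n : ℤ) + d * h) = (Tz d)^[t] (n : ℤ)

theorem fwdD {d : ℤ} (hd : d % 2 = 1) : HD (MergedD d) 1 := by
  classical
  rw [HD_iff]
  apply density_one
  intro ε hε
  obtain ⟨m0, hm0⟩ := forwardD hd (show 0 < ε / 4 by positivity)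
  have hev : ∀ᶠ N : ℕ in atTop, (∃ m ≥ m0, 2 * (4 ^ m * m ^ 30) ≤ Nat.log 2 N / 4 ∧
    ∀ z w : ℝ, 0 ≤ z → z ≤ Nat.log 2 N → 0.3 * Nat.log 2 N ≤ w →
      √ z / (Real.log w) ^ 16 < 2 ^ m * Real.log 2) ∧ 100 ≤ Nat.log 2 N ∧
      (2 : ℝ) ^ (Nat.log 2 N / 2) ≤ ε / 4 * N := by
    have h1 := tendsto_natlog.eventually (choose_m m0)
    have h2 := tendsto_natlog.eventually (eventually_ge_atTop 100)
    have h3 : ∀ᶠ s : ℕ in atTop, 4 / ε ≤ (2 : ℝ) ^ (s / 2) := by
      have h4 : Tendsto (fun s : ℕ => (2 : ℝ) ^ (s / 2)) atTop atTop := by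
        apply (tendsto_pow_atTop_atTop_of_one_lt (by norm_num : (1 : ℝ) < 2)).comp
        rw [tendsto_atTop]
        intro b
        filter_upwards [eventually_ge_atTop (2 * b)] with s hs
        omega
      exact h4.eventually_ge_atTop _
    have h4 := tendsto_natlog.eventually h3
    filter_upwards [h1, h2, h4, eventually_ge_atTop 1] with N h1 h2 h4 h5
    refine ⟨h1, h2, ?_⟩
    set s := Nat.log 2 N with hs
    have h6 : 2 ^ s ≤ N := Nat.pow_log_le_self 2 (by omega)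
    have h7 : 2 ^ (s / 2) * 2 ^ (s / 2) ≤ N := by
      rw [← pow_add]
      exact (Nat.pow_le_pow_right (by norm_num) (by omega)).trans h6
    have h8 : (2 : ℝ) ^ (s / 2) * 2 ^ (s / 2) ≤ N := by exact_mod_cast h7
    have h9 : (0 : ℝ) < 2 ^ (s / 2) := by positivity
    rw [div_le_iff₀ hε] at h4
    have h10 : 4 * (2 : ℝ) ^ (s / 2) ≤ (2 ^ (s / 2) * ε) * 2 ^ (s / 2) :=
      mul_le_mul_of_nonneg_right h4 h9.le
    nlinarith
  obtain ⟨N0, hN0⟩ := eventually_atTop.1 hev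
  refine ⟨N0, fun N => ?_⟩
  have htriv : (#((Icc 1 N).filter (fun n => ¬ MergedD d n)) : ℝ) ≤ N := by
    have := card_filter_le (Icc 1 N) (fun n => ¬ MergedD d n)
    rw [Nat.card_Icc, Nat.add_sub_cancel] at this
    exact_mod_cast this
  rcases Nat.lt_or_ge N N0 with h | h
  · have h2 : (N : ℝ) ≤ N0 := by exact_mod_cast h.le
    have h3 : 0 ≤ ε * N := by positivity
    linarith
  · obtain ⟨⟨m, hm, hmT, hmG⟩, hs100, hsm⟩ := hN0 N h
    obtain ⟨T, hT, hcount⟩ := hm0 m hm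
    have hc := hcount N
    set s := Nat.log 2 N with hs
    have hNpos : N ≠ 0 := by
      rintro rfl
      simp at hs
      omega
    have hTs : T ≤ s / 4 := hT.trans hmT
    have h2s : 2 ^ s ≤ N := Nat.pow_log_le_self 2 hNpos
    have hN2s : N < 2 ^ (s + 1) := Nat.lt_pow_succ_log_self (by norm_num) N
    have h2T : (2 : ℝ) ^ T ≤ N := by
      have : 2 ^ T ≤ N := (Nat.pow_le_pow_right (by norm_num) (by omega)).trans h2s
      exact_mod_cast this
    have hsub : (Icc 1 N).filter (fun n => ¬ MergedD d n) ⊆ range (2 ^ (s / 2)) ∪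
        (Icc 1 N).filter (fun n : ℕ => ¬ ∀ h : ℕ, h < 2 ^ 2 ^ m →
      (Tz d)^[T] (((n : ℕ) : ℤ) + d * h) = (Tz d)^[T] ((n : ℕ) : ℤ)) := by
      intro n hn
      rw [mem_filter, mem_Icc] at hn
      rw [mem_union, mem_range]
      by_contra hcon
      rw [not_or, not_lt] at hcon
      obtain ⟨hn1, hn2⟩ := hcon
      rw [mem_filter, not_and, not_not, mem_Icc] at hn2
      have hn3 := hn2 hn.1
      apply hn.2
      refine ⟨T, fun j hj => hn3 j ?_⟩
      have hn0 : (0 : ℝ) < n := by exact_mod_cast (by omega : 0 < n)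
      have hsr : (100 : ℝ) ≤ s := by exact_mod_cast hs100
      have l2 := Real.log_two_gt_d9
      have l2' := Real.log_two_lt_d9
      have hlogn : Real.log n ≤ s := by
        have h1 : (n : ℝ) ≤ 2 ^ (s + 1) := by exact_mod_cast (by omega : n ≤ 2 ^ (s + 1))
        have h2 := Real.log_le_log hn0 h1
        rw [Real.log_pow] at h2
        push_cast at h2
        nlinarith
      have hlogn2 : 0.3 * s ≤ Real.log n := by
        have h1 : (2 : ℝ) ^ (s / 2) ≤ n := by exact_mod_cast hn1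
        have h2 := Real.log_le_log (by positivity) h1
        rw [Real.log_pow] at h2
        have h3 : ((s : ℝ) - 1) / 2 ≤ ((s / 2 : ℕ) : ℝ) := by
          have : s ≤ 2 * (s / 2) + 1 := by omega
          have : (s : ℝ) ≤ 2 * ((s / 2 : ℕ) : ℝ) + 1 := by exact_mod_cast this
          linarith
        nlinarith
      have h5 := hmG (Real.log n) (Real.log n) (by linarith) hlogn hlogn2
      have h6 : (j : ℝ) < 2 ^ 2 ^ m := by
        refine lt_of_le_of_lt hj ?_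
        unfold GG
        have h7 := Real.exp_lt_exp.2 h5
        refine lt_of_lt_of_eq h7 ?_
        have h8 : (2 : ℝ) ^ m * Real.log 2 = ((2 ^ m : ℕ) : ℝ) * Real.log 2 := by push_cast; rfl
        rw [h8, Real.exp_nat_mul, Real.exp_log (by norm_num)]
      exact_mod_cast h6
    have h1 : (#((Icc 1 N).filter (fun n => ¬ MergedD d n)) : ℝ) ≤ 2 ^ (s / 2) +
        (#((Icc 1 N).filter (fun n : ℕ => ¬ ∀ h : ℕ, h < 2 ^ 2 ^ m →
      (Tz d)^[T] (((n : ℕ) : ℤ) + d * h) = (Tz d)^[T] ((n : ℕ) : ℤ))) : ℝ) := by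
      have h2 := (card_le_card hsub).trans (card_union_le _ _)
      rw [card_range] at h2
      exact_mod_cast h2
    have h0 : (0 : ℝ) ≤ N0 := by positivity
    have hNr : (0 : ℝ) ≤ N := by positivity
    nlinarith

end Pool.Agent.Run7.h263.ID
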