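import Pool.Agent.Run7.h263.ID.Win

set_option autoImplicit false

namespace Pool.Agent.Run7.h263.ID

open Filter Topology Finset

open Pool.Agent.W38.CR (GG)

open Pool.Agent.H499R2.CO (Tz)

open Pool.Agent.Run7.h195.Iso (C ww one_le_ww ww_mono ww_small ww_three ww_GG tendsto_log_nat ev_small)

open Classical in
/-- Positive elements. -/
theorem main {d : ℤ} (hd : d % 6 = 1 ∨ d % 6 = 5) {S : Set ℤ} (hS : Inv d S) (a : ℕ)
    {p q : ℤ} (hp : p ∈ S) (hp0 : 0 < p) (hp3 : ¬ (3 : ℤ) ∣ p) (hpa : Rel d a p)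
    (hq : q ∉ S) (hq0 : 0 < q) (hq3 : ¬ (3 : ℤ) ∣ q) (hqa : Rel d a q) {w : ℕ → ℝ}
    (w0 : ∀ n, 0 ≤ w n) (wm : Monotone w) (hw1 : ∀ᶠ n : ℕ in atTop, 100 * w n ≤ n)
    (hw2 : ∀ᶠ n : ℕ in atTop, w (3 * n) ≤ 3 / 2 * w n)
    (hw3 : ∀ᶠ x : ℕ in atTop, ∀ y : ℕ, x ≤ 2 * y → 2 * ((3 * w (4 * x) + 1) + 1) ≤ GG y)
    (hw4 : ∀ᶠ x : ℕ in atTop, 2 * (d.natAbs : ℝ) * ((3 * w (4 * x) + 1) + 1) ≤ x) :
    ¬ Summable (fun n : {n : ℕ | LoneIn d.natAbs a w (fun n => (n : ℤ) ∈ S) n} =>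
      (w n + 1) / ((n : ℕ) : ℝ)) := by
  have hd2 : d % 2 = 1 := by omega
  have hD2 : d.natAbs % 2 = 1 := by omega
  obtain ⟨δ, h1, h2⟩ := dens hd hS
  obtain ⟨δ', h1', h2'⟩ := dens hd hS.compl
  have hδ : 0 < δ a := h2 a p hp hp0 hp3 hpa
  have hδ' : 0 < δ' a := h2' a q hq hq0 hq3 hqa
  obtain ⟨c, hc, hA⟩ := windows hd2 hS.compl hδ' (h1' a) (H := fun x => 3 * w (4 * x) + 1)
    (fun x => by have := w0 (4 * x); positivity) hw3 hw4
  refine core (D := d.natAbs) hD2 a (u := fun n => (n : ℤ) ∈ S) ?_ w0 wm hw1 hw2 hδ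
    (U := UU S d.natAbs a) ?_ (h1 a) hc (V := fun x z => ∀ y : ℕ, |(y : ℝ) - z| ≤ 3 * w (4 * x) + 1 →
      (y : ℤ) ≡ a [ZMOD d.natAbs] → (y : ℤ) ∈ Sᶜ) ?_ ?_
  · intro m _
    have := hS.two m
    push_cast
    exact this
  · intro n
    unfold UU
    rw [Int.natCast_modEq_iff]
  · intro x z hz y hy hya hyS
    exact hz y hy (Int.natCast_modEq_iff.2 hya) hyS
  · exact hA

theorem ww_lin {θ : ℝ} (hθ : 0 < θ) (hθ1 : θ < 1) (B : ℝ) (hB : 0 ≤ B) :
    ∀ᶠ n : ℕ in atTop, B * ww θ n ≤ n := by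
  obtain ⟨θ', h1, h2⟩ : ∃ θ', θ < θ' ∧ θ' < 1 := exists_between hθ1
  have h3 : Tendsto (fun L : ℝ => L ^ (θ' - θ)) atTop atTop := tendsto_rpow_atTop (by linarith)
  have h4 : Tendsto (fun L : ℝ => L ^ θ) atTop atTop := tendsto_rpow_atTop hθ
  have h5 : ∀ᶠ L : ℝ in atTop, Real.log (B + 1) + L ^ θ ≤ Real.log 100 + L ^ θ' := by
    filter_upwards [h3.eventually (eventually_ge_atTop 2),
      h4.eventually (eventually_ge_atTop (Real.log (B + 1))), eventually_gt_atTop 0] with L a1 a2 a3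
    have a4 : L ^ θ' = L ^ θ * L ^ (θ' - θ) := by
      rw [← Real.rpow_add a3]; ring_nf
    have a5 : 0 < L ^ θ := Real.rpow_pos_of_pos a3 θ
    have a6 : 0 ≤ Real.log 100 := Real.log_nonneg (by norm_num)
    have a7 : L ^ θ * 2 ≤ L ^ θ' := by
      rw [a4]; exact mul_le_mul_of_nonneg_left a1 a5.le
    linarith
  filter_upwards [tendsto_log_nat.eventually h5, ww_small h2] with n b1 b2
  have b3 : (B + 1) * ww θ n ≤ 100 * ww θ' n := by
    unfold ww
    calc (B + 1) * Real.exp (Real.log n ^ θ) = Real.exp (Real.log (B + 1) + Real.log n ^ θ) := by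
          rw [Real.exp_add, Real.exp_log (by linarith)]
      _ ≤ Real.exp (Real.log 100 + Real.log n ^ θ') := Real.exp_le_exp.2 b1
      _ = _ := by rw [Real.exp_add, Real.exp_log (by norm_num)]
  have b4 := one_le_ww θ n
  nlinarith

theorem main_ww {d : ℤ} (hd : d % 6 = 1 ∨ d % 6 = 5) {S : Set ℤ} (hS : Inv d S) (a : ℕ)
    {p q : ℤ} (hp : p ∈ S) (hp0 : 0 < p) (hp3 : ¬ (3 : ℤ) ∣ p) (hpa : Rel d a p)
    (hq : q ∉ S) (hq0 : 0 < q) (hq3 : ¬ (3 : ℤ) ∣ q) (hqa : Rel d a q) {θ : ℝ} (hθ : 0 < θ)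
    (hθ1 : θ < 1 / 2) :
    ¬ Summable (fun n : {n : ℕ | LoneIn d.natAbs a (ww θ) (fun n => (n : ℤ) ∈ S) n} =>
      ww θ n / ((n : ℕ) : ℝ)) := by
  intro hsum
  refine main hd hS a hp hp0 hp3 hpa hq hq0 hq3 hqa (w := ww θ)
    (fun n => (by linarith [one_le_ww θ n])) (ww_mono hθ)
    (ww_small (by linarith)) (ww_three hθ (by linarith)) ?_ ?_ ?_
  · filter_upwards [ww_GG hθ hθ1] with x hx y hxy
    have h1 := hx y hxy
    have h2 := one_le_ww θ (4 * x)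
    linarith
  · have h1 : Tendsto (fun x : ℕ => 4 * x) atTop atTop :=
      tendsto_atTop_mono (fun x => by show x ≤ 4 * x; omega) tendsto_id
    filter_upwards [h1.eventually (ww_lin hθ (by linarith) (40 * (d.natAbs : ℝ)) (by positivity))]
      with x h2
    have h3 := one_le_ww θ (4 * x)
    have h4 : (0 : ℝ) ≤ d.natAbs := by positivity
    push_cast at h2 ⊢
    nlinarith
  · refine Summable.of_nonneg_of_le (fun n => ?_) (fun n => ?_) (hsum.mul_left 2)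
    · have := one_le_ww θ n
      positivity
    · rw [← mul_div_assoc]
      apply div_le_div_of_nonneg_right _ (Nat.cast_nonneg _)
      have := one_le_ww θ n
      linarith

theorem main_const {d : ℤ} (hd : d % 6 = 1 ∨ d % 6 = 5) {S : Set ℤ} (hS : Inv d S) (a : ℕ)
    {p q : ℤ} (hp : p ∈ S) (hp0 : 0 < p) (hp3 : ¬ (3 : ℤ) ∣ p) (hpa : Rel d a p)
    (hq : q ∉ S) (hq0 : 0 < q) (hq3 : ¬ (3 : ℤ) ∣ q) (hqa : Rel d a q) (M : ℝ) (hM : 0 ≤ M) :
    ¬ Summable (fun n : {n : ℕ | LoneIn d.natAbs a (fun _ => M) (fun n => (n : ℤ) ∈ S) n} =>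
      1 / ((n : ℕ) : ℝ)) := by
  intro hsum
  refine main hd hS a hp hp0 hp3 hpa hq hq0 hq3 hqa (w := fun _ => M)
    (fun n => hM) monotone_const ?_ ?_ ?_ ?_ ?_
  · exact tendsto_natCast_atTop_atTop.eventually (eventually_ge_atTop (100 * M))
  · exact Eventually.of_forall fun n => by linarith
  · have h1 : Tendsto (fun x : ℕ => ww (1 / 4) (4 * x)) atTop atTop := by
      unfold ww
      refine Real.tendsto_exp_atTop.comp ((tendsto_rpow_atTop (by norm_num)).comp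
        (tendsto_log_nat.comp ?_))
      exact tendsto_atTop_mono (fun x => by show x ≤ 4 * x; omega) tendsto_id
    filter_upwards [ww_GG (θ := 1 / 4) (by norm_num) (by norm_num),
      h1.eventually (eventually_ge_atTop M)] with x hx h2 y hxy
    have h3 := hx y hxy
    have h4 := one_le_ww (1 / 4) (4 * x)
    linarith
  · exact tendsto_natCast_atTop_atTop.eventually (eventually_ge_atTop _)
  · have := hsum.mul_left (M + 1)
    refine this.congr fun n => ?_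
    ring

end Pool.Agent.Run7.h263.ID
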