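import Pool.Agent.Run7.h263.ID.Main

set_option autoImplicit false

namespace Pool.Agent.Run7.h263.ID

open Filter Topology

open Pool.Agent.H499R2.CO (Tz)

open Pool.Agent.Run7.h195.Iso (ww one_le_ww)

/-- The odd elements `n` of `S` without an even element of `S` in the class of `n` modulo `d` at a
distance of at most `w |n|`. -/
def Iso (d : ℤ) (w : ℕ → ℝ) (S : Set ℤ) : Set ℤ :=
  {n | n % 2 = 1 ∧ n ∈ S ∧
    ∀ m : ℤ, m % 2 = 0 → m ≡ n [ZMOD d] → |(m : ℝ) - n| ≤ w n.natAbs → m ∉ S}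

/-- The integers of sign `s` in the classes `2 ^ i a` modulo `d`. -/
def Cl (s d a : ℤ) : Set ℤ := {n | 0 < s * n ∧ ∃ i : ℕ, n ≡ 2 ^ i * a [ZMOD d]}

theorem transfer {d : ℤ} {S : Set ℤ} {a : ℤ} {a' : ℕ} (ha : (a' : ℤ) ≡ a [ZMOD d]) {w : ℕ → ℝ}
    (hw : ∀ᶠ n : ℕ in atTop, w n < n) {g : ℕ → ℝ}
    (hsum : Summable fun n : ↥(Iso d w S ∩ Cl 1 d a) => g (n : ℤ).natAbs) :
    Summable fun n : {n : ℕ | LoneIn d.natAbs a' w (fun n => (n : ℤ) ∈ S) n} => g n := by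
  obtain ⟨N, hN⟩ := hw.exists_forall_of_atTop
  obtain ⟨L, hL⟩ : ∃ L : Set ℕ, L = {n : ℕ | LoneIn d.natAbs a' w (fun n => (n : ℤ) ∈ S) n} :=
    ⟨_, rfl⟩
  have hinc : ∀ n ∈ L ∩ {n | N ≤ n}, (n : ℤ) ∈ Iso d w S ∩ Cl 1 d a := by
    rintro n ⟨h1, h2⟩
    rw [hL] at h1
    obtain ⟨⟨h3, h4, h5⟩, i, hi⟩ := h1
    have hwn := hN n h2
    have hn1 : 1 ≤ n := by omega
    refine ⟨⟨by omega, h4, ?_⟩, by omega, i, ?_⟩
    · intro m hm0 hm1 hm2 hmS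
      rw [Int.natAbs_natCast] at hm2
      have hpos : 0 < m := by
        by_contra hcon
        have h6 : (m : ℝ) ≤ 0 := by exact_mod_cast not_lt.1 hcon
        have h7 : (n : ℝ) ≤ |(m : ℝ) - ((n : ℤ) : ℝ)| := by
          have := neg_abs_le ((m : ℝ) - ((n : ℤ) : ℝ))
          push_cast at this ⊢
          linarith
        linarith
      obtain ⟨k, rfl⟩ : ∃ k : ℕ, m = (k : ℤ) := ⟨m.toNat, by omega⟩
      refine h5 k (by omega) (by omega) ?_ ?_ hmS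
      · rw [← Int.natCast_modEq_iff]
        rw [Int.modEq_iff_dvd] at hm1 ⊢
        exact Int.natAbs_dvd.2 hm1
      · push_cast at hm2
        exact hm2
    · have h6 : (n : ℤ) ≡ ((2 ^ i * a' : ℕ) : ℤ) [ZMOD (d.natAbs : ℕ)] := Int.natCast_modEq_iff.2 hi
      rw [Int.modEq_iff_dvd] at h6
      have h7 : (n : ℤ) ≡ ((2 ^ i * a' : ℕ) : ℤ) [ZMOD d] := Int.modEq_iff_dvd.2 (Int.natAbs_dvd.1 h6)
      push_cast at h7
      exact h7.trans (ha.mul_left _)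
  have h1 : Summable fun n : ↥(L ∩ {n | N ≤ n}) => g n := by
    have h2 : Function.Injective (fun n : ↥(L ∩ {n | N ≤ n}) =>
        (⟨((n : ℕ) : ℤ), hinc n n.2⟩ : ↥(Iso d w S ∩ Cl 1 d a))) := by
      intro x y hxy
      simp only [Subtype.mk.injEq, Nat.cast_inj] at hxy
      exact Subtype.ext hxy
    have h3 := hsum.comp_injective h2
    refine h3.congr fun n => ?_
    simp
  rw [← hL]
  have h4 := summable_subtype_iff_indicator.1 h1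
  have h5 : Summable (Set.indicator L g) := by
    refine h4.congr_cofinite ?_
    rw [EventuallyEq, eventually_cofinite]
    apply (Set.finite_Iio N).subset
    intro n hn
    by_contra hcon
    apply hn
    have h6 : N ≤ n := by simpa using hcon
    by_cases h7 : n ∈ L
    · have h8 : n ∈ L ∩ {n | N ≤ n} := ⟨h7, h6⟩
      rw [Set.indicator_of_mem h7, Set.indicator_of_mem h8]
    · have h8 : n ∉ L ∩ {n | N ≤ n} := fun h => h7 h.1
      rw [Set.indicator_of_notMem h7, Set.indicator_of_notMem h8]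
  exact summable_subtype_iff_indicator.2 h5

/-- reflection -/
def Ng (S : Set ℤ) : Set ℤ := {x | -x ∈ S}

theorem Ng_inv {d : ℤ} (hd : d % 2 = 1) {S : Set ℤ} (hS : Inv d S) : Inv (-d) (Ng S) := by
  intro x
  show -x ∈ S ↔ -(Tz (-d) x) ∈ S
  rw [hS (-x)]
  have : -(Tz (-d) x) = Tz d (-x) := by
    unfold Tz
    split_ifs <;> omega
  rw [this]

theorem modEq_neg' {d a b : ℤ} (h : a ≡ b [ZMOD d]) : -a ≡ -b [ZMOD -d] := by
  rw [Int.modEq_iff_dvd] at h ⊢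
  rw [Int.neg_dvd]
  have : -b - -a = -(b - a) := by ring
  rw [this, Int.dvd_neg]
  exact h

theorem Rel.neg {d a b : ℤ} (h : Rel d a b) : Rel (-d) (-a) (-b) := by
  obtain ⟨i, j, h⟩ := h
  refine ⟨i, j, ?_⟩
  have := modEq_neg' h
  rwa [← mul_neg] at this

theorem reflect {d : ℤ} {S : Set ℤ} {a : ℤ} {w g : ℕ → ℝ}
    (hsum : Summable fun n : ↥(Iso d w S ∩ Cl (-1) d a) => g (n : ℤ).natAbs) :
    Summable fun n : ↥(Iso (-d) w (Ng S) ∩ Cl 1 (-d) (-a)) => g (n : ℤ).natAbs := by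
  have hinc : ∀ n ∈ Iso (-d) w (Ng S) ∩ Cl 1 (-d) (-a), -n ∈ Iso d w S ∩ Cl (-1) d a := by
    rintro n ⟨⟨h1, h2, h3⟩, h4, i, hi⟩
    refine ⟨⟨by omega, h2, ?_⟩, by linarith, i, ?_⟩
    · intro m hm0 hm1 hm2 hmS
      refine h3 (-m) (by omega) ?_ ?_ (by show - -m ∈ S; rwa [neg_neg])
      · have := modEq_neg' hm1
        rwa [neg_neg] at this
      · rw [Int.natAbs_neg] at hm2
        refine le_trans (le_of_eq ?_) hm2
        rw [← abs_neg]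
        congr 1
        push_cast
        ring
    · have := modEq_neg' hi
      rw [neg_neg] at this
      have e : -(2 ^ i * -a) = 2 ^ i * a := by ring
      rwa [e] at this
  have h2 : Function.Injective (fun n : ↥(Iso (-d) w (Ng S) ∩ Cl 1 (-d) (-a)) =>
      (⟨-(n : ℤ), hinc n n.2⟩ : ↥(Iso d w S ∩ Cl (-1) d a))) := by
    intro x y hxy
    simp only [Subtype.mk.injEq, neg_inj] at hxy
    exact Subtype.ext hxy
  refine (hsum.comp_injective h2).congr fun n => ?_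
  simp

theorem exists_rep {d : ℤ} (hd : d ≠ 0) (a : ℤ) : ∃ a' : ℕ, (a' : ℤ) ≡ a [ZMOD d] := by
  refine ⟨(a % d).toNat, ?_⟩
  rw [Int.toNat_of_nonneg (Int.emod_nonneg _ hd)]
  exact Int.mod_modEq a d

theorem Rel.congr_left {d a a' b : ℤ} (h : a' ≡ a [ZMOD d]) (hr : Rel d a b) : Rel d a' b := by
  obtain ⟨i, j, hij⟩ := hr
  exact ⟨i, j, h.trans hij⟩

theorem pos_ww {d : ℤ} (hd : d % 6 = 1 ∨ d % 6 = 5) {S : Set ℤ} (hS : Inv d S) (a : ℤ)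
    {p q : ℤ} (hp : p ∈ S) (hp0 : 0 < p) (hp3 : ¬ (3 : ℤ) ∣ p) (hpa : Rel d a p)
    (hq : q ∉ S) (hq0 : 0 < q) (hq3 : ¬ (3 : ℤ) ∣ q) (hqa : Rel d a q) {θ : ℝ} (hθ : 0 < θ)
    (hθ1 : θ < 1 / 2) :
    ¬ Summable (fun n : ↥(Iso d (ww θ) S ∩ Cl 1 d a) =>
      ww θ (n : ℤ).natAbs / ((n : ℤ).natAbs : ℝ)) := by
  intro hsum
  obtain ⟨a', ha'⟩ := exists_rep (show d ≠ 0 by rintro rfl; norm_num at hd) a
  refine main_ww hd hS a' hp hp0 hp3 (hpa.congr_left ha') hq hq0 hq3 (hqa.congr_left ha') hθ hθ1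
    (transfer (g := fun n => ww θ n / (n : ℝ)) ha' ?_ hsum)
  filter_upwards [ww_lin hθ (by linarith) 2 (by norm_num)] with n hn
  have := one_le_ww θ n
  linarith

theorem pos_const {d : ℤ} (hd : d % 6 = 1 ∨ d % 6 = 5) {S : Set ℤ} (hS : Inv d S) (a : ℤ)
    {p q : ℤ} (hp : p ∈ S) (hp0 : 0 < p) (hp3 : ¬ (3 : ℤ) ∣ p) (hpa : Rel d a p)
    (hq : q ∉ S) (hq0 : 0 < q) (hq3 : ¬ (3 : ℤ) ∣ q) (hqa : Rel d a q) (M : ℝ) (hM : 0 ≤ M) :
    ¬ Summable (fun n : ↥(Iso d (fun _ => M) S ∩ Cl 1 d a) => 1 / ((n : ℤ).natAbs : ℝ)) := by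
  intro hsum
  obtain ⟨a', ha'⟩ := exists_rep (show d ≠ 0 by rintro rfl; norm_num at hd) a
  refine main_const hd hS a' hp hp0 hp3 (hpa.congr_left ha') hq hq0 hq3 (hqa.congr_left ha') M hM
    (transfer (g := fun n => 1 / (n : ℝ)) ha' ?_ hsum)
  exact tendsto_natCast_atTop_atTop.eventually (eventually_gt_atTop M)

theorem iso_ww {d : ℤ} (hd : d % 6 = 1 ∨ d % 6 = 5) {S : Set ℤ} (hS : Inv d S) (a : ℤ) {s : ℤ}
    (hs : s = 1 ∨ s = -1) {p q : ℤ} (hp : p ∈ S) (hp0 : 0 < s * p) (hp3 : ¬ (3 : ℤ) ∣ p)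
    (hpa : Rel d a p) (hq : q ∉ S) (hq0 : 0 < s * q) (hq3 : ¬ (3 : ℤ) ∣ q) (hqa : Rel d a q) {θ : ℝ}
    (hθ : 0 < θ) (hθ1 : θ < 1 / 2) :
    ¬ Summable (fun n : ↥(Iso d (ww θ) S ∩ Cl s d a) =>
      ww θ (n : ℤ).natAbs / ((n : ℤ).natAbs : ℝ)) := by
  rcases hs with rfl | rfl
  · exact pos_ww hd hS a hp (by linarith) hp3 hpa hq (by linarith) hq3 hqa hθ hθ1
  · intro hsum
    exact pos_ww (d := -d) (by omega) (Ng_inv (by omega) hS) (-a) (p := -p) (q := -q)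
      (by show - -p ∈ S; rwa [neg_neg]) (by linarith) (by rwa [Int.dvd_neg]) hpa.neg
      (by show ¬ (- -q ∈ S); rwa [neg_neg]) (by linarith) (by rwa [Int.dvd_neg]) hqa.neg hθ hθ1
      (reflect (g := fun n => ww θ n / (n : ℝ)) hsum)

theorem iso_const {d : ℤ} (hd : d % 6 = 1 ∨ d % 6 = 5) {S : Set ℤ} (hS : Inv d S) (a : ℤ) {s : ℤ}
    (hs : s = 1 ∨ s = -1) {p q : ℤ} (hp : p ∈ S) (hp0 : 0 < s * p) (hp3 : ¬ (3 : ℤ) ∣ p)
    (hpa : Rel d a p) (hq : q ∉ S) (hq0 : 0 < s * q) (hq3 : ¬ (3 : ℤ) ∣ q) (hqa : Rel d a q) (M : ℝ)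
    (hM : 0 ≤ M) :
    ¬ Summable (fun n : ↥(Iso d (fun _ => M) S ∩ Cl s d a) => 1 / ((n : ℤ).natAbs : ℝ)) := by
  rcases hs with rfl | rfl
  · exact pos_const hd hS a hp (by linarith) hp3 hpa hq (by linarith) hq3 hqa M hM
  · intro hsum
    exact pos_const (d := -d) (by omega) (Ng_inv (by omega) hS) (-a) (p := -p) (q := -q)
      (by show - -p ∈ S; rwa [neg_neg]) (by linarith) (by rwa [Int.dvd_neg]) hpa.neg
      (by show ¬ (- -q ∈ S); rwa [neg_neg]) (by linarith) (by rwa [Int.dvd_neg]) hqa.neg M hM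
      (reflect (g := fun n => 1 / (n : ℝ)) hsum)

end Pool.Agent.Run7.h263.ID
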