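import Pool.Agent.Run7.h263.ID.Fwd
import Pool.Agent.Run7.h263.ID.Core
import Pool.Agent.Run7.h195.Iso5
import Pool.Agent.Results.MP_7f88e4_nt.ResidueClasses

set_option autoImplicit false

namespace Pool.Agent.Run7.h263.ID

open Filter Topology Finset

open Pool.Agent.W38.CR (GG)

open Pool.Agent.H499R2.CO (Tz)

open Pool.Agent.Run7.h195.Iso (C C_eq card_Ioc_filter C_not_add)

/-- `S` is invariant under the `3x+d` map and its inverse -/
def Inv (d : ℤ) (S : Set ℤ) : Prop := ∀ x : ℤ, x ∈ S ↔ Tz d x ∈ S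

theorem Inv.compl {d : ℤ} {S : Set ℤ} (h : Inv d S) : Inv d Sᶜ := fun x => not_congr (h x)

theorem Inv.iter {d : ℤ} {S : Set ℤ} (h : Inv d S) (t : ℕ) : ∀ x, x ∈ S ↔ (Tz d)^[t] x ∈ S := by
  induction t with
  | zero => intro x; rfl
  | succ t ih => intro x; rw [Function.iterate_succ_apply, h x]; exact ih _

theorem Inv.two {d : ℤ} {S : Set ℤ} (h : Inv d S) (x : ℤ) : 2 * x ∈ S ↔ x ∈ S := by
  rw [h (2 * x)]
  unfold Tz
  rw [if_pos (by omega), Int.mul_ediv_cancel_left _ (by norm_num)]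

/-- On a merged run an invariant set is everything or empty. -/
theorem merged_iff {d : ℤ} {S : Set ℤ} (hS : Inv d S) {n : ℕ} (hM : MergedD d n) {h : ℕ}
    (hh : (h : ℝ) ≤ GG n) : (n : ℤ) + d * h ∈ S ↔ (n : ℤ) ∈ S := by
  obtain ⟨t, ht⟩ := hM
  rw [hS.iter t, ht h hh, ← hS.iter t]

/-- the elements of `S` in a residue class modulo `D` -/
def UU (S : Set ℤ) (D : ℕ) (a : ℤ) (n : ℕ) : Prop := (n : ℤ) ∈ S ∧ (n : ℤ) ≡ a [ZMOD D]

/-- `a` and `b` agree modulo `g` up to a factor `2 ^ i * 3 ^ j`. -/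
def Rel (g a b : ℤ) : Prop := ∃ i j : ℕ, a ≡ 2 ^ i * 3 ^ j * b [ZMOD g]

theorem dens {d : ℤ} (hd : d % 6 = 1 ∨ d % 6 = 5) {S : Set ℤ} (hS : Inv d S) :
    ∃ δ : ℤ → ℝ, (∀ a, Tendsto (fun N : ℕ => (C (UU S d.natAbs a) N : ℝ) / N) atTop (𝓝 (δ a))) ∧
      ∀ a x : ℤ, x ∈ S → 0 < x → ¬ (3 : ℤ) ∣ x → Rel d a x → 0 < δ a := by
  classical
  have hd0 : 1 ≤ d.natAbs := by omega
  obtain ⟨δ, h1, -, h3⟩ := Pool.Agent.Results.MP_7f88e4_nt.ResidueClasses.main hd (A := S) hS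
    (s := 1) (Or.inl rfl) d.natAbs hd0
  refine ⟨δ, fun a => ?_, fun a x hx hx0 hx3 hr => h3 a x hx (by simpa using hx0) hx3 ?_⟩
  · have h4 := h1 a
    unfold Pool.Agent.Results.MP_7f88e4_nt.ResidueClasses.HasDensity at h4
    refine h4.congr fun N => ?_
    congr 1
    rw [Pool.Agent.Results.MP_7f88e4_nt.ResidueClasses.count_eq (Or.inl rfl)]
    unfold Pool.Agent.H284R3.RD.cnt C UU
    norm_cast
    congr 1
    apply Finset.filter_congr
    intro n _
    simp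
  · obtain ⟨i, j, hij⟩ := hr
    refine ⟨i, j, ?_⟩
    have e : ((Int.gcd (d.natAbs : ℤ) d : ℕ) : ℤ) = (d.natAbs : ℤ) := by
      rw [Int.gcd, Int.natAbs_natCast, Nat.gcd_self]
    rw [e]
    rw [Int.modEq_iff_dvd] at hij ⊢
    exact (Int.natAbs_dvd).2 hij

open Classical in
/-- A positive proportion of the integers are in the middle of long intervals in which all integers
of the class are in `Q`. -/
theorem windows {d : ℤ} (hd : d % 2 = 1) {Q : Set ℤ} (hQ : Inv d Q) {a : ℤ} {l : ℝ} (hl0 : 0 < l)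
    (hC : Tendsto (fun N : ℕ => (C (UU Q d.natAbs a) N : ℝ) / N) atTop (𝓝 l))
    {H : ℕ → ℝ} (hH0 : ∀ x, 0 ≤ H x)
    (hH : ∀ᶠ x : ℕ in atTop, ∀ y : ℕ, x ≤ 2 * y → 2 * (H x + 1) ≤ GG y)
    (hH1 : ∀ᶠ x : ℕ in atTop, 2 * (d.natAbs : ℝ) * (H x + 1) ≤ x) :
    ∃ c : ℝ, 0 < c ∧ ∀ᶠ x : ℕ in atTop, c * x ≤ (((Finset.Ico x (2 * x)).filter fun z : ℕ =>
      ∀ y : ℕ, |(y : ℝ) - z| ≤ H x → (y : ℤ) ≡ a [ZMOD d.natAbs] → (y : ℤ) ∈ Q).card : ℝ) := by
  obtain ⟨NM, hNM⟩ : ∃ NM : ℕ → Prop, ∀ n, NM n ↔ ¬ MergedD d n := ⟨_, fun _ => Iff.rfl⟩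
  have hM : Tendsto (fun N : ℕ => (C (MergedD d) N : ℝ) / N) atTop (𝓝 1) := by
    refine (fwdD hd).congr fun N => ?_
    rw [C_eq]
  have hD1 : 1 ≤ d.natAbs := by omega
  have hD1R : (1 : ℝ) ≤ d.natAbs := by exact_mod_cast hD1
  refine ⟨l / 4, by positivity, ?_⟩
  have e1 : ∀ᶠ N : ℕ in atTop, |(C (UU Q d.natAbs a) N : ℝ) / N - l| < l / 16 := by
    have h1 : Tendsto (fun N : ℕ => |(C (UU Q d.natAbs a) N : ℝ) / N - l|) atTop (𝓝 0) := by
      have := (hC.sub_const l).abs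
      simpa using this
    exact (tendsto_order.1 h1).2 (l / 16) (by positivity)
  have e2 : ∀ᶠ N : ℕ in atTop, 1 - l / 16 < (C (MergedD d) N : ℝ) / N :=
    (tendsto_order.1 hM).1 _ (by linarith)
  obtain ⟨N1, hN1⟩ := e1.exists_forall_of_atTop
  obtain ⟨N2, hN2⟩ := e2.exists_forall_of_atTop
  filter_upwards [hH, hH1, eventually_ge_atTop (N1 + N2 + 2), eventually_ge_atTop ⌈16 / l⌉₊] with
    x h1 h2 h3 h3'
  have hx0 : (2 : ℝ) ≤ x := by
    have : 2 ≤ x := by omega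
    exact_mod_cast this
  have hx16 : 16 / l ≤ x := (Nat.le_ceil _).trans (by exact_mod_cast h3')
  have hlx : 16 ≤ l * x := by
    rw [div_le_iff₀ hl0] at hx16
    linarith
  obtain ⟨h, hh1, hh2⟩ : ∃ h : ℕ, H x ≤ h ∧ (h : ℝ) < H x + 1 :=
    ⟨⌈H x⌉₊, Nat.le_ceil _, Nat.ceil_lt_add_one (hH0 x)⟩
  have hhx : 2 * (d.natAbs * h) < x := by
    have h4 : (d.natAbs : ℝ) * h < d.natAbs * (H x + 1) := mul_lt_mul_of_pos_left hh2 (by linarith)
    have : (2 : ℝ) * (d.natAbs * h) < x := by linarith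
    exact_mod_cast this
  have hdh : |d * h| = ((d.natAbs * h : ℕ) : ℤ) := by
    rw [abs_mul, Nat.abs_cast, Int.abs_eq_natAbs]; push_cast; ring
  have hdh1 : d * h ≤ ((d.natAbs * h : ℕ) : ℤ) := hdh ▸ le_abs_self _
  have hdh2 : -((d.natAbs * h : ℕ) : ℤ) ≤ d * h := hdh ▸ neg_abs_le _
  -- the number of z with the property
  have a1 : (l * x - l / 4 * x) ≤ (((Finset.Ico x (2 * x)).filter (UU Q d.natAbs a)).card : ℝ) := by
    have b1 := hN1 (2 * x - 1) (by omega)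
    have b2 := hN1 (x - 1) (by omega)
    have c1 : ((2 * x - 1 : ℕ) : ℝ) = 2 * x - 1 := by
      rw [Nat.cast_sub (by omega)]; push_cast; ring
    have c2 : ((x - 1 : ℕ) : ℝ) = x - 1 := by
      rw [Nat.cast_sub (by omega)]; push_cast; ring
    rw [c1, abs_lt] at b1
    rw [c2, abs_lt] at b2
    have p1 : (0 : ℝ) < 2 * x - 1 := by linarith
    have p2 : (0 : ℝ) < x - 1 := by linarith
    have b3 : (l - l / 16) * (2 * x - 1) < (C (UU Q d.natAbs a) (2 * x - 1) : ℝ) := by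
      have := b1.1
      rw [← lt_div_iff₀ p1]; linarith
    have b4 : (C (UU Q d.natAbs a) (x - 1) : ℝ) < (l + l / 16) * (x - 1) := by
      have := b2.2
      rw [← div_lt_iff₀ p2]; linarith
    have b5 := card_Ioc_filter (u := UU Q d.natAbs a) (show x - 1 ≤ 2 * x - 1 by omega)
    have b6 : (Finset.Ioc (x - 1) (2 * x - 1)).filter (UU Q d.natAbs a) =
        (Finset.Ico x (2 * x)).filter (UU Q d.natAbs a) := by
      congr 1
      ext n
      simp only [Finset.mem_Ioc, Finset.mem_Ico]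
      omega
    rw [b6] at b5
    have b7 : (((Finset.Ico x (2 * x)).filter (UU Q d.natAbs a)).card : ℝ) +
        C (UU Q d.natAbs a) (x - 1) = C (UU Q d.natAbs a) (2 * x - 1) := by
      exact_mod_cast b5
    nlinarith
  -- the number of those without a run
  have a2 : (((Finset.Ico x (2 * x)).filter fun z : ℕ => NM ((z : ℤ) - d * h).toNat).card : ℝ) ≤
      l / 4 * x := by
    have b1 := hN2 (3 * x) (by omega)
    have b2 : (((Finset.Ico x (2 * x)).filter fun z : ℕ => NM ((z : ℤ) - d * h).toNat).card) ≤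
        C NM (3 * x) := by
      unfold C
      refine Finset.card_le_card_of_injOn (fun z : ℕ => ((z : ℤ) - d * h).toNat) ?_ ?_
      · intro z hz
        rw [Finset.mem_coe, Finset.mem_filter, Finset.mem_Ico] at hz
        rw [Finset.mem_coe, Finset.mem_filter, Finset.mem_Icc]
        refine ⟨⟨?_, ?_⟩, hz.2⟩
        · show 1 ≤ ((z : ℤ) - d * h).toNat
          omega
        · show ((z : ℤ) - d * h).toNat ≤ 3 * x
          omega
      · intro z hz z' hz' heq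
        rw [Finset.mem_coe, Finset.mem_filter, Finset.mem_Ico] at hz hz'
        simp only at heq
        omega
    have b3 := C_not_add hNM (3 * x)
    have b4 : (C (MergedD d) (3 * x) : ℝ) + C NM (3 * x) = 3 * x := by
      exact_mod_cast b3
    have c1 : ((3 * x : ℕ) : ℝ) = 3 * x := by push_cast; ring
    rw [c1, lt_div_iff₀ (by linarith)] at b1
    have b5 : (((Finset.Ico x (2 * x)).filter fun z : ℕ => NM ((z : ℤ) - d * h).toNat).card : ℝ) ≤
        C NM (3 * x) := by exact_mod_cast b2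
    nlinarith
  have a3 : ((Finset.Ico x (2 * x)).filter (UU Q d.natAbs a)) ⊆
      ((Finset.Ico x (2 * x)).filter fun z : ℕ => ∀ y : ℕ, |(y : ℝ) - z| ≤ H x →
        (y : ℤ) ≡ a [ZMOD d.natAbs] → (y : ℤ) ∈ Q) ∪
        (Finset.Ico x (2 * x)).filter fun z : ℕ => NM ((z : ℤ) - d * h).toNat := by
    intro z hz
    rw [Finset.mem_filter] at hz
    rw [Finset.mem_union, Finset.mem_filter, Finset.mem_filter]
    have hzx := Finset.mem_Ico.1 hz.1
    obtain ⟨z', hz'⟩ : ∃ z' : ℕ, (z' : ℤ) = (z : ℤ) - d * h :=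
      ⟨((z : ℤ) - d * h).toNat, Int.toNat_of_nonneg (by omega)⟩
    have hz't : ((z : ℤ) - d * h).toNat = z' := by omega
    by_cases hm : MergedD d z'
    · left
      refine ⟨hz.1, fun y hy hya => ?_⟩
      have hR := h1 z' (by omega)
      obtain ⟨r, hr⟩ : ∃ r : ℤ, (y : ℤ) - z = d * r := by
        have h4 := (hz.2.2.trans hya.symm).dvd
        exact (Int.natAbs_dvd.1 h4)
      have hrh : |r| ≤ h := by
        have h4 : (|(y : ℤ) - z| : ℤ) ≤ h := by
          have h5 : |(y : ℝ) - z| ≤ h := hy.trans hh1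
          have h6 : ((|(y : ℤ) - z| : ℤ) : ℝ) ≤ ((h : ℤ) : ℝ) := by push_cast; exact h5
          exact_mod_cast h6
        rw [hr, abs_mul] at h4
        have h5 : (1 : ℤ) ≤ |d| := by rw [Int.abs_eq_natAbs]; exact_mod_cast hD1
        have h6 := abs_nonneg r
        nlinarith
      obtain ⟨r1, r2⟩ := abs_le.1 hrh
      obtain ⟨k, hk⟩ : ∃ k : ℕ, (k : ℤ) = h + r := ⟨(h + r).toNat, Int.toNat_of_nonneg (by omega)⟩
      have hk2 : (k : ℝ) ≤ GG z' := by
        have h4 : (k : ℤ) ≤ 2 * h := by omega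
        have h5 : (k : ℝ) ≤ 2 * h := by exact_mod_cast h4
        linarith
      obtain ⟨k', hk'⟩ : ∃ k' : ℕ, k' = h := ⟨h, rfl⟩
      have hk'2 : (k' : ℝ) ≤ GG z' := by
        rw [hk']
        linarith
      have m1 := merged_iff hQ hm hk2
      have m2 := merged_iff hQ hm hk'2
      have g1 : (z' : ℤ) + d * k = y := by rw [hz', hk]; linear_combination -hr
      have g2 : (z' : ℤ) + d * k' = z := by rw [hz', hk']; ring
      rw [g1] at m1
      rw [g2] at m2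
      exact m1.2 (m2.1 hz.2.1)
    · right
      refine ⟨hz.1, ?_⟩
      rw [hz't]
      exact (hNM _).2 hm
  have a4 := (Finset.card_le_card a3).trans (Finset.card_union_le _ _)
  have a5 : (((Finset.Ico x (2 * x)).filter (UU Q d.natAbs a)).card : ℝ) ≤
      ((Finset.Ico x (2 * x)).filter fun z : ℕ => ∀ y : ℕ, |(y : ℝ) - z| ≤ H x →
        (y : ℤ) ≡ a [ZMOD d.natAbs] → (y : ℤ) ∈ Q).card +
        ((Finset.Ico x (2 * x)).filter fun z : ℕ => NM ((z : ℤ) - d * h).toNat).card := by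
    exact_mod_cast a4
  nlinarith

end Pool.Agent.Run7.h263.ID
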